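import Mathlib

set_option autoImplicit false

/-! Positive majorants of functionals and their representation by measures. Vendored from the
files `Lim`, `Major`, `Meas` of helper130 on this team. -/

open scoped ENNReal BigOperators Topology
open Filter MeasureTheory TopologicalSpace

namespace Pool.Agent.Helper47.Maj


/-- A generalised limit on bounded real sequences. -/
theorem exists_genLim : ∃ L : (lp (fun _ : ℕ => ℝ) ∞) →L[ℝ] ℝ, (∀ a, |L a| ≤ ‖a‖) ∧
    ∀ (a : lp (fun _ : ℕ => ℝ) ∞) (c : ℝ), Tendsto (fun k => a k) atTop (𝓝 c) → L a = c := by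
  let ev : ℕ → (lp (fun _ : ℕ => ℝ) ∞) →L[ℝ] ℝ := fun k => lp.evalCLM ℝ (fun _ : ℕ => ℝ) ∞ k
  have hev : ∀ k a, ev k a = a k := fun k a => rfl
  have hnorm : ∀ k, ‖ev k‖ ≤ 1 := by
    intro k
    apply ContinuousLinearMap.opNorm_le_bound _ zero_le_one
    intro x
    rw [one_mul]
    exact lp.norm_apply_le_norm (by simp) x k
  let evw : ℕ → WeakDual ℝ (lp (fun _ : ℕ => ℝ) ∞) := fun k => StrongDual.toWeakDual (ev k)
  have hK := WeakDual.isCompact_closedBall (𝕜 := ℝ) (E := lp (fun _ : ℕ => ℝ) ∞) 0 1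
  have hmem : ∀ k, evw k ∈ WeakDual.toStrongDual ⁻¹' Metric.closedBall
      (0 : StrongDual ℝ (lp (fun _ : ℕ => ℝ) ∞)) 1 := by
    intro k
    rw [Set.mem_preimage, mem_closedBall_zero_iff]
    exact hnorm k
  obtain ⟨L, hLK, hL⟩ := hK.ultrafilter_le_nhds (Ultrafilter.map evw (hyperfilter ℕ)) (by
    rw [le_principal_iff]
    exact Filter.mem_map.2 (Filter.univ_mem' hmem))
  have hconv : ∀ a : lp (fun _ : ℕ => ℝ) ∞, Tendsto (fun k => a k) (hyperfilter ℕ : Filter ℕ)
      (𝓝 (L a)) := by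
    intro a
    have h1 : Tendsto evw (hyperfilter ℕ : Filter ℕ) (𝓝 L) := hL
    have h2 := (WeakDual.eval_continuous (𝕜 := ℝ) (E := lp (fun _ : ℕ => ℝ) ∞) a).tendsto L
    exact h2.comp h1
  refine ⟨WeakDual.toStrongDual L, ?_, ?_⟩
  · intro a
    have h1 : ‖WeakDual.toStrongDual L‖ ≤ 1 := by
      simpa using hLK
    have h2 := (WeakDual.toStrongDual L).le_opNorm a
    calc |(WeakDual.toStrongDual L) a| = ‖(WeakDual.toStrongDual L) a‖ := rfl
      _ ≤ ‖WeakDual.toStrongDual L‖ * ‖a‖ := h2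
      _ ≤ 1 * ‖a‖ := by gcongr
      _ = ‖a‖ := one_mul _
  · intro a c hc
    have h1 : Tendsto (fun k => a k) (hyperfilter ℕ : Filter ℕ) (𝓝 c) :=
      hc.mono_left Nat.hyperfilter_le_atTop
    exact tendsto_nhds_unique (hconv a) h1



/-- Bounded real functions on `N`. -/
abbrev Linf (N : Type) : Type := lp (fun _ : N => ℝ) ∞

/-- Positive functionals. -/
def Pos {N : Type} (y : Linf N →L[ℝ] ℝ) : Prop := ∀ f : Linf N, (∀ n, 0 ≤ f n) → 0 ≤ y f

section Major

variable {N : Type}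

theorem linf_norm_le {f : Linf N} {C : ℝ} (hC : 0 ≤ C) (h : ∀ n, |f n| ≤ C) : ‖f‖ ≤ C :=
  lp.norm_le_of_forall_le hC h

theorem linf_apply_le (f : Linf N) (n : N) : |f n| ≤ ‖f‖ := lp.norm_apply_le_norm (by simp) f n

theorem linf_mul_apply (f g : Linf N) (n : N) : (f * g) n = f n * g n := by
  rw [lp.infty_coeFn_mul]; rfl

theorem linf_one_apply (n : N) : (1 : Linf N) n = 1 := by
  rw [lp.infty_coeFn_one]; rfl

/-- Every functional has a positive majorant of no larger norm. -/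
theorem exists_majorant (ν : Linf N →L[ℝ] ℝ) : ∃ ρ : Linf N →L[ℝ] ℝ,
    (∀ f h : Linf N, (∀ n, |f n| ≤ h n) → |ν f| ≤ ρ h) ∧ ‖ρ‖ ≤ ‖ν‖ := by
  obtain ⟨L, hL1, hL2⟩ := exists_genLim
  -- nearly norming sequence
  have hg : ∀ k : ℕ, ∃ g : Linf N, ‖g‖ ≤ 1 ∧ ‖ν‖ - 1 / ((k : ℝ) + 1) ≤ ν g := by
    intro k
    have hpos : (0 : ℝ) < 1 / ((k : ℝ) + 1) := by positivity
    by_cases hc : ‖ν‖ - 1 / ((k : ℝ) + 1) ≤ 0
    · exact ⟨0, by simp, by simpa using hc⟩
    · push Not at hc
      obtain ⟨x, hx1, hx2⟩ := ContinuousLinearMap.exists_lt_apply_of_lt_opNorm ν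
        (show ‖ν‖ - 1 / ((k : ℝ) + 1) < ‖ν‖ by linarith)
      rcases le_total 0 (ν x) with h | h
      · refine ⟨x, hx1.le, ?_⟩
        rw [Real.norm_eq_abs, abs_of_nonneg h] at hx2
        exact hx2.le
      · refine ⟨-x, by rw [norm_neg]; exact hx1.le, ?_⟩
        rw [Real.norm_eq_abs, abs_of_nonpos h] at hx2
        rw [map_neg]
        exact hx2.le
  choose g hg1 hg2 using hg
  have hbd : ∀ (f : Linf N) (k : ℕ), |ν (g k * f)| ≤ ‖ν‖ * ‖f‖ := by
    intro f k
    calc |ν (g k * f)| ≤ ‖ν‖ * ‖g k * f‖ := ν.le_opNorm _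
      _ ≤ ‖ν‖ * (‖g k‖ * ‖f‖) := by gcongr; exact norm_mul_le _ _
      _ ≤ ‖ν‖ * (1 * ‖f‖) := by gcongr; exact hg1 k
      _ = ‖ν‖ * ‖f‖ := by ring
  let B : Linf N → Linf ℕ := fun f => ⟨fun k => ν (g k * f), memℓp_infty ⟨‖ν‖ * ‖f‖, by
    rintro _ ⟨k, rfl⟩
    exact hbd f k⟩⟩
  have hB : ∀ f k, B f k = ν (g k * f) := fun f k => rfl
  have hBn : ∀ f, ‖B f‖ ≤ ‖ν‖ * ‖f‖ := fun f => linf_norm_le (by positivity) (hbd f)
  have hBadd : ∀ f f', B (f + f') = B f + B f' := by
    intro f f'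
    apply lp.ext
    funext k
    rw [lp.coeFn_add, Pi.add_apply, hB, hB, hB, mul_add, map_add]
  have hBsmul : ∀ (c : ℝ) f, B (c • f) = c • B f := by
    intro c f
    apply lp.ext
    funext k
    rw [lp.coeFn_smul, Pi.smul_apply, hB, hB, mul_smul_comm, map_smul]
  let ρ : Linf N →L[ℝ] ℝ := LinearMap.mkContinuous
    { toFun := fun f => L (B f)
      map_add' := fun f f' => by rw [hBadd, map_add]
      map_smul' := fun c f => by rw [hBsmul, map_smul]; rfl }
    ‖ν‖ (fun f => (hL1 _).trans (hBn f))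
  have hρ : ∀ f, ρ f = L (B f) := fun f => rfl
  have hρ1 : ρ 1 = ‖ν‖ := by
    rw [hρ]
    apply hL2
    have hlo : Tendsto (fun k : ℕ => ‖ν‖ - 1 / ((k : ℝ) + 1)) atTop (𝓝 ‖ν‖) := by
      have := (tendsto_one_div_add_atTop_nhds_zero_nat (𝕜 := ℝ)).const_sub ‖ν‖
      simpa using this
    refine tendsto_of_tendsto_of_tendsto_of_le_of_le hlo tendsto_const_nhds ?_ ?_
    · intro k
      simp only
      rw [hB, mul_one]
      exact hg2 k
    · intro k
      simp only
      rw [hB, mul_one]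
      calc ν (g k) ≤ ‖ν (g k)‖ := le_abs_self _
        _ ≤ ‖ν‖ * ‖g k‖ := ν.le_opNorm _
        _ ≤ ‖ν‖ * 1 := by gcongr; exact hg1 k
        _ = ‖ν‖ := mul_one _
  have key : ∀ f h : Linf N, (∀ n, |f n| ≤ h n) → ν f ≤ ρ h := by
    intro f h hfh
    set H := ‖h‖ with hH
    have h0 : 0 ≤ H := norm_nonneg _
    have hle : ∀ n, h n ≤ H := fun n => (le_abs_self _).trans (linf_apply_le h n)
    -- `ν f + ρ (H • 1 - h) ≤ H ‖ν‖`
    have h1 : ν f + ρ (H • (1 : Linf N) - h) ≤ H * ‖ν‖ := by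
      let cst : Linf ℕ := ⟨fun _ => ν f, memℓp_infty ⟨|ν f|, by rintro _ ⟨k, rfl⟩; exact le_rfl⟩⟩
      have hc1 : L cst = ν f := hL2 cst _ tendsto_const_nhds
      have hc2 : ν f + ρ (H • (1 : Linf N) - h) = L (cst + B (H • (1 : Linf N) - h)) := by
        rw [map_add, hc1, hρ]
      rw [hc2]
      calc L (cst + B (H • (1 : Linf N) - h)) ≤ |L (cst + B (H • (1 : Linf N) - h))| := le_abs_self _
        _ ≤ ‖cst + B (H • (1 : Linf N) - h)‖ := hL1 _
        _ ≤ H * ‖ν‖ := by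
          apply linf_norm_le (by positivity)
          intro k
          have e1 : (cst + B (H • (1 : Linf N) - h)) k = ν (f + g k * (H • (1 : Linf N) - h)) := by
            rw [lp.coeFn_add, Pi.add_apply, hB, map_add]
          rw [e1]
          calc |ν (f + g k * (H • (1 : Linf N) - h))|
              ≤ ‖ν‖ * ‖f + g k * (H • (1 : Linf N) - h)‖ := ν.le_opNorm _
            _ ≤ ‖ν‖ * H := by
              gcongr
              apply linf_norm_le h0
              intro n
              rw [lp.coeFn_add, Pi.add_apply, linf_mul_apply, lp.coeFn_sub, Pi.sub_apply,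
                lp.coeFn_smul, Pi.smul_apply, linf_one_apply, smul_eq_mul, mul_one]
              have hgk : |g k n| ≤ 1 := (linf_apply_le (g k) n).trans (hg1 k)
              have hHh : 0 ≤ H - h n := by linarith [hle n]
              calc |f n + g k n * (H - h n)| ≤ |f n| + |g k n * (H - h n)| := abs_add_le _ _
                _ = |f n| + |g k n| * (H - h n) := by rw [abs_mul, abs_of_nonneg hHh]
                _ ≤ h n + 1 * (H - h n) := by
                  gcongr
                  exact hfh n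
                _ = H := by ring
            _ = H * ‖ν‖ := mul_comm _ _
    have h2 : ρ (H • (1 : Linf N) - h) = H * ‖ν‖ - ρ h := by
      rw [map_sub, map_smul, hρ1, smul_eq_mul]
    linarith
  refine ⟨ρ, ?_, ?_⟩
  · intro f h hfh
    rw [abs_le]
    constructor
    · have := key (-f) h (fun n => by rw [lp.coeFn_neg, Pi.neg_apply, abs_neg]; exact hfh n)
      rw [map_neg] at this
      linarith
    · exact key f h hfh
  · exact LinearMap.mkContinuous_norm_le _ (norm_nonneg _) _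

theorem Pos.of_majorant {ν ρ : Linf N →L[ℝ] ℝ}
    (h : ∀ f h : Linf N, (∀ n, |f n| ≤ h n) → |ν f| ≤ ρ h) : Pos ρ := by
  intro f hf
  have := h 0 f (fun n => by
    rw [lp.coeFn_zero]
    simpa using hf n)
  simpa using this

theorem Pos.sub_of_majorant {ν ρ : Linf N →L[ℝ] ℝ}
    (h : ∀ f h : Linf N, (∀ n, |f n| ≤ h n) → |ν f| ≤ ρ h) : Pos (ρ - ν) := by
  intro f hf
  have h1 := h f f (fun n => by rw [abs_of_nonneg (hf n)])
  rw [ContinuousLinearMap.sub_apply]
  linarith [le_abs_self (ν f)]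

theorem Pos.add {y z : Linf N →L[ℝ] ℝ} (hy : Pos y) (hz : Pos z) : Pos (y + z) := by
  intro f hf
  rw [ContinuousLinearMap.add_apply]
  exact add_nonneg (hy f hf) (hz f hf)

theorem Pos.mono {y : Linf N →L[ℝ] ℝ} (hy : Pos y) {f g : Linf N} (h : ∀ n, f n ≤ g n) :
    y f ≤ y g := by
  have := hy (g - f) (fun n => by
    rw [lp.coeFn_sub, Pi.sub_apply]
    linarith [h n])
  rw [map_sub] at this
  linarith


end Major


section Meas

variable {N : Type} {Ω : Type} [TopologicalSpace Ω] [CompactSpace Ω]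

/-- Pull-back of a continuous function. -/
noncomputable def pull (φ : N → Ω) (h : C(Ω, ℝ)) : Linf N :=
  ⟨fun n => h (φ n), memℓp_infty ⟨‖h‖, by rintro _ ⟨n, rfl⟩; exact h.norm_coe_le_norm _⟩⟩

theorem pull_apply (φ : N → Ω) (h : C(Ω, ℝ)) (n : N) : pull φ h n = h (φ n) := rfl

theorem pull_add (φ : N → Ω) (h k : C(Ω, ℝ)) : pull φ (h + k) = pull φ h + pull φ k := rfl

theorem pull_sub (φ : N → Ω) (h k : C(Ω, ℝ)) : pull φ (h - k) = pull φ h - pull φ k := rfl

theorem pull_smul (φ : N → Ω) (c : ℝ) (h : C(Ω, ℝ)) : pull φ (c • h) = c • pull φ h := rfl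

theorem pull_mul (φ : N → Ω) (h k : C(Ω, ℝ)) : pull φ (h * k) = pull φ h * pull φ k := rfl

theorem pull_one (φ : N → Ω) : pull φ (1 : C(Ω, ℝ)) = 1 := rfl

variable [T2Space Ω] [MeasurableSpace Ω] [BorelSpace Ω]

theorem exists_meas (φ : N → Ω) {y : Linf N →L[ℝ] ℝ} (hy : Pos y) :
    ∃ m : Measure Ω, IsFiniteMeasure m ∧ ∀ h : C(Ω, ℝ), ∫ x, h x ∂m = y (pull φ h) := by
  let Λ : CompactlySupportedContinuousMap Ω ℝ →ₚ[ℝ] ℝ :=
  { toFun := fun g => y (pull φ g.toContinuousMap)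
    map_add' := fun g g' => by
      have : pull φ (g + g').toContinuousMap =
        pull φ g.toContinuousMap + pull φ g'.toContinuousMap := rfl
      rw [this, map_add]
    map_smul' := fun c g => by
      have : pull φ (c • g).toContinuousMap = c • pull φ g.toContinuousMap := rfl
      rw [this, map_smul]
      rfl
    monotone' := fun g g' hgg' => hy.mono fun n => hgg' (φ n) }
  refine ⟨RealRMK.rieszMeasure Λ, by infer_instance, fun h => ?_⟩
  let h' : CompactlySupportedContinuousMap Ω ℝ :=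
  { toContinuousMap := h
    hasCompactSupport' := HasCompactSupport.of_compactSpace _ }
  exact RealRMK.integral_rieszMeasure Λ h'


end Meas

end Pool.Agent.Helper47.Maj
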