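import Mathlib

set_option autoImplicit false

open Set Topology Filter Cardinal

namespace Pool.Agent.Helper47.SE

section Det

variable {B : Type} [TopologicalSpace B] [CompactSpace B]

/-- A continuous function on a compact space is determined up to `η` by finitely many members of
a separating family. -/
theorem finite_det {I : Type} (g : I → B → ℝ) (hg : ∀ i, Continuous (g i))
    (hsep : ∀ a b, (∀ i, g i a = g i b) → a = b) (f : B → ℝ) (hf : Continuous f) {η : ℝ}
    (hη : 0 < η) :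
    ∃ (F : Finset I) (ρ : ℝ), 0 < ρ ∧ ∀ a b, (∀ i ∈ F, |g i a - g i b| < ρ) →
      |f a - f b| < η := by
  have hCc : IsCompact {p : B × B | η ≤ |f p.1 - f p.2|} := by
    apply IsClosed.isCompact
    exact isClosed_le continuous_const
      ((hf.comp continuous_fst).sub (hf.comp continuous_snd)).abs
  have hUo : ∀ q : I × ℕ, IsOpen {p : B × B | 1 / ((q.2 : ℝ) + 1) < |g q.1 p.1 - g q.1 p.2|} :=
    fun q => isOpen_lt continuous_const
      (((hg q.1).comp continuous_fst).sub ((hg q.1).comp continuous_snd)).abs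
  obtain ⟨t, ht⟩ := hCc.elim_finite_subcover _ hUo (by
    intro p hp
    have hne : p.1 ≠ p.2 := by
      intro h
      have : η ≤ |f p.1 - f p.2| := hp
      rw [h, sub_self, abs_zero] at this
      linarith
    have : ∃ i, g i p.1 ≠ g i p.2 := by
      by_contra hcon
      push Not at hcon
      exact hne (hsep _ _ hcon)
    obtain ⟨i, hi⟩ := this
    obtain ⟨n, hn⟩ := exists_nat_one_div_lt (abs_pos.2 (sub_ne_zero.2 hi))
    exact mem_iUnion.2 ⟨(i, n), hn⟩)
  classical
  refine ⟨t.image Prod.fst, 1 / (((t.sup Prod.snd : ℕ) : ℝ) + 1), by positivity, ?_⟩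
  intro a b hab
  by_contra hcon
  push Not at hcon
  have hmem : (a, b) ∈ ⋃ q ∈ t, {p : B × B | 1 / ((q.2 : ℝ) + 1) < |g q.1 p.1 - g q.1 p.2|} :=
    ht hcon
  simp only [mem_iUnion] at hmem
  obtain ⟨q, hq, hq2⟩ := hmem
  have h1 := hab q.1 (Finset.mem_image_of_mem _ hq)
  have h2 : (1 : ℝ) / ((q.2 : ℝ) + 1) < |g q.1 a - g q.1 b| := hq2
  have h3 : (q.2 : ℝ) ≤ ((t.sup Prod.snd : ℕ) : ℝ) := by
    exact_mod_cast Finset.le_sup (f := Prod.snd) hq
  have h4 : (1 : ℝ) / (((t.sup Prod.snd : ℕ) : ℝ) + 1) ≤ 1 / ((q.2 : ℝ) + 1) := by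
    apply one_div_le_one_div_of_le (by positivity)
    linarith
  linarith

/-- countable determination -/
theorem countable_det {I : Type} (g : I → B → ℝ) (hg : ∀ i, Continuous (g i))
    (hsep : ∀ a b, (∀ i, g i a = g i b) → a = b) (f : B → ℝ) (hf : Continuous f) :
    ∃ F : Set I, F.Countable ∧ ∀ a b, (∀ i ∈ F, g i a = g i b) → f a = f b := by
  have h : ∀ n : ℕ, ∃ (F : Finset I) (ρ : ℝ), 0 < ρ ∧ ∀ a b,
      (∀ i ∈ F, |g i a - g i b| < ρ) → |f a - f b| < 1 / ((n : ℝ) + 1) :=
    fun n => finite_det g hg hsep f hf (by positivity)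
  choose F ρ hρ hF using h
  refine ⟨⋃ n, (F n : Set I), countable_iUnion fun n => (F n).countable_toSet, ?_⟩
  intro a b hab
  by_contra hne
  obtain ⟨n, hn⟩ := exists_nat_one_div_lt (abs_pos.2 (sub_ne_zero.2 hne))
  have := hF n a b (fun i hi => by
    rw [hab i (mem_iUnion.2 ⟨n, hi⟩), sub_self, abs_zero]
    exact hρ n)
  linarith

end Det

section C0

variable {Γ : Type}

/-- `f` vanishes at infinity on the discrete set `Γ` -/
def C0 (f : Γ → ℝ) : Prop := Tendsto f cofinite (𝓝 0)

theorem C0.finite {f : Γ → ℝ} (hf : C0 f) {ε : ℝ} (hε : 0 < ε) : {γ | ε ≤ |f γ|}.Finite := by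
  have h := (Metric.tendsto_nhds.1 hf) ε hε
  rw [eventually_cofinite] at h
  refine h.subset ?_
  intro γ hγ
  simp only [Real.dist_eq, sub_zero, not_lt]
  exact hγ

theorem C0.of_finite {f : Γ → ℝ} (hf : ∀ ε : ℝ, 0 < ε → {γ | ε ≤ |f γ|}.Finite) : C0 f := by
  apply Metric.tendsto_nhds.2
  intro ε hε
  rw [eventually_cofinite]
  refine (hf ε hε).subset ?_
  intro γ hγ
  simpa [Real.dist_eq] using hγ

theorem C0.countable_support {f : Γ → ℝ} (hf : C0 f) : (Function.support f).Countable := by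
  have h : Function.support f ⊆ ⋃ n : ℕ, {γ | 1 / ((n : ℝ) + 1) ≤ |f γ|} := by
    intro γ hγ
    obtain ⟨n, hn⟩ := exists_nat_one_div_lt (abs_pos.2 hγ)
    exact mem_iUnion.2 ⟨n, hn.le⟩
  exact (countable_iUnion fun n => (hf.finite (by positivity)).countable).mono h

end C0

section Closure

variable {Γ : Type}

/-- closed under the set-valued operation `G` on finite sets -/
def ClosedG (G : Finset Γ → Set Γ) (A : Set Γ) : Prop := ∀ F : Finset Γ, (F : Set Γ) ⊆ A → G F ⊆ A

def stepG (G : Finset Γ → Set Γ) (T : Set Γ) : Set Γ :=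
  T ∪ ⋃ (F : Finset Γ) (_ : (F : Set Γ) ⊆ T), G F

def iterG (G : Finset Γ → Set Γ) (T : Set Γ) : ℕ → Set Γ
  | 0 => T
  | n + 1 => stepG G (iterG G T n)

def clG (G : Finset Γ → Set Γ) (T : Set Γ) : Set Γ := ⋃ n, iterG G T n

variable {G : Finset Γ → Set Γ}

theorem subset_stepG (T : Set Γ) : T ⊆ stepG G T := subset_union_left

theorem stepG_mono {S T : Set Γ} (h : S ⊆ T) : stepG G S ⊆ stepG G T := by
  rintro x (hx | hx)
  · exact Or.inl (h hx)
  · simp only [mem_iUnion] at hx
    obtain ⟨F, hF, hx⟩ := hx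
    exact Or.inr (mem_iUnion.2 ⟨F, mem_iUnion.2 ⟨hF.trans h, hx⟩⟩)

theorem iterG_mono_nat (T : Set Γ) : Monotone (iterG G T) :=
  monotone_nat_of_le_succ fun n => subset_stepG (iterG G T n)

theorem iterG_mono {S T : Set Γ} (h : S ⊆ T) (n : ℕ) : iterG G S n ⊆ iterG G T n := by
  induction n with
  | zero => exact h
  | succ n ih => exact stepG_mono ih

theorem subset_clG (T : Set Γ) : T ⊆ clG G T := fun _ hx => mem_iUnion.2 ⟨0, hx⟩

theorem clG_mono {S T : Set Γ} (h : S ⊆ T) : clG G S ⊆ clG G T :=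
  iUnion_mono fun n => iterG_mono h n

theorem finset_subset_of_directed {f : ℕ → Set Γ} (hf : Monotone f) {F : Finset Γ}
    (hF : (F : Set Γ) ⊆ ⋃ n, f n) : ∃ n, (F : Set Γ) ⊆ f n := by
  classical
  induction F using Finset.induction_on with
  | empty => exact ⟨0, by simp⟩
  | insert a s ha ih =>
    rw [Finset.coe_insert, insert_subset_iff] at hF
    obtain ⟨n, hn⟩ := ih hF.2
    obtain ⟨m, hm⟩ := mem_iUnion.1 hF.1
    refine ⟨max n m, ?_⟩
    rw [Finset.coe_insert, insert_subset_iff]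
    exact ⟨hf (le_max_right n m) hm, hn.trans (hf (le_max_left n m))⟩

theorem closed_iUnion {f : ℕ → Set Γ} (hf : Monotone f)
    (h : ∀ n, ∃ m, ∀ F : Finset Γ, (F : Set Γ) ⊆ f n → G F ⊆ f m) : ClosedG G (⋃ n, f n) := by
  intro F hF
  obtain ⟨n, hn⟩ := finset_subset_of_directed hf hF
  obtain ⟨m, hm⟩ := h n
  exact (hm F hn).trans (subset_iUnion f m)

theorem closed_clG (T : Set Γ) : ClosedG G (clG G T) := by
  apply closed_iUnion (iterG_mono_nat T)
  intro n
  refine ⟨n + 1, fun F hF x hx => Or.inr (mem_iUnion.2 ⟨F, mem_iUnion.2 ⟨hF, hx⟩⟩)⟩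

theorem clG_subset {T A : Set Γ} (hT : T ⊆ A) (hA : ClosedG G A) : clG G T ⊆ A := by
  apply iUnion_subset
  intro n
  induction n with
  | zero => exact hT
  | succ n ih =>
    rintro x (hx | hx)
    · exact ih hx
    · simp only [mem_iUnion] at hx
      obtain ⟨F, hF, hx⟩ := hx
      exact hA F (hF.trans ih) hx

theorem mk_finset_le' (α : Type) : #(Finset α) ≤ max #α ℵ₀ := by
  rcases finite_or_infinite α with h | h
  · exact le_max_of_le_right ((Cardinal.lt_aleph0_of_finite _).le)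
  · rw [mk_finset_of_infinite]
    exact le_max_left _ _

theorem mk_stepG_le (hG : ∀ F, (G F).Countable) (T : Set Γ) : #(stepG G T) ≤ max #T ℵ₀ := by
  classical
  have h1 : stepG G T ⊆ T ∪ ⋃ F : Finset T, G (F.map ⟨Subtype.val, Subtype.val_injective⟩) := by
    rintro x (hx | hx)
    · exact Or.inl hx
    · simp only [mem_iUnion] at hx
      obtain ⟨F, hF, hx⟩ := hx
      refine Or.inr (mem_iUnion.2 ⟨F.subtype (· ∈ T), ?_⟩)
      have : (F.subtype (· ∈ T)).map ⟨Subtype.val, Subtype.val_injective⟩ = F := by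
        ext y
        simp only [Finset.mem_map, Finset.mem_subtype, Function.Embedding.coeFn_mk, Subtype.exists,
          exists_and_left, exists_prop, exists_eq_right_right, and_iff_left_iff_imp]
        intro hy
        exact hF hy
      rwa [this]
  refine (mk_le_mk_of_subset h1).trans ?_
  refine (mk_union_le _ _).trans ?_
  have h2 : #(⋃ F : Finset T, G (F.map ⟨Subtype.val, Subtype.val_injective⟩) : Set Γ)
      ≤ max #T ℵ₀ := by
    refine (mk_iUnion_le _).trans ?_
    calc #(Finset T) * ⨆ F : Finset T, #(G (F.map ⟨Subtype.val, Subtype.val_injective⟩))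
        ≤ max #T ℵ₀ * ℵ₀ := by
          gcongr
          · exact mk_finset_le' _
          · apply ciSup_le'
            intro F
            exact le_aleph0_iff_set_countable.2 (hG _)
      _ ≤ max #T ℵ₀ * max #T ℵ₀ := by gcongr; exact le_max_right _ _
      _ = max #T ℵ₀ := mul_eq_self (le_max_right _ _)
  calc #T + _ ≤ max #T ℵ₀ + max #T ℵ₀ := by gcongr; exact le_max_left _ _
    _ = max #T ℵ₀ := add_eq_self (le_max_right _ _)

theorem mk_iterG_le (hG : ∀ F, (G F).Countable) (T : Set Γ) (n : ℕ) :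
    #(iterG G T n) ≤ max #T ℵ₀ := by
  induction n with
  | zero => exact le_max_left _ _
  | succ n ih =>
    refine (mk_stepG_le hG _).trans ?_
    exact max_le ih (le_max_right _ _)

theorem mk_clG_le (hG : ∀ F, (G F).Countable) (T : Set Γ) : #(clG G T) ≤ max #T ℵ₀ := by
  refine (mk_iUnion_le _).trans ?_
  calc #ℕ * ⨆ n, #(iterG G T n) ≤ max #T ℵ₀ * max #T ℵ₀ := by
        gcongr
        · simp
        · exact ciSup_le' fun n => mk_iterG_le hG T n
    _ = max #T ℵ₀ := mul_eq_self (le_max_right _ _)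

theorem countable_clG (hG : ∀ F, (G F).Countable) {T : Set Γ} (hT : T.Countable) :
    (clG G T).Countable := by
  rw [← le_aleph0_iff_set_countable]
  refine (mk_clG_le hG T).trans ?_
  exact max_le (le_aleph0_iff_set_countable.2 hT) le_rfl

end Closure

end Pool.Agent.Helper47.SE
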