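import Pool.Agent.Helper47.SE.SE1

set_option autoImplicit false

open Set Topology Filter Cardinal

namespace Pool.Agent.Helper47.SE

section Good

variable {B Γ : Type} [TopologicalSpace B] [CompactSpace B]

/-- countable sets of `c_0`-points approximating everything on a finite set of coordinates -/
theorem exists_approx (e : B → Γ → ℝ) (he : Continuous e) (hD : Dense {s | C0 (e s)})
    (F : Finset Γ) : ∃ c : Set B, c.Countable ∧ (∀ d ∈ c, C0 (e d)) ∧
      ∀ φ : B, ∀ ε : ℝ, 0 < ε → ∃ d ∈ c, ∀ γ ∈ F, |e d γ - e φ γ| < ε := by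
  let π : B → (F → ℝ) := fun φ γ => e φ γ
  have hπ : Continuous π := continuous_pi fun γ => (continuous_apply (γ : Γ)).comp he
  obtain ⟨t, ht1, ht2, ht3⟩ := (TopologicalSpace.IsSeparable.of_separableSpace
    (π '' {s | C0 (e s)})).exists_countable_dense_subset
  have hch : ∀ y : t, ∃ d : B, C0 (e d) ∧ π d = y := by
    intro y
    obtain ⟨d, hd, hd2⟩ := ht1 y.2
    exact ⟨d, hd, hd2⟩
  choose d hd1 hd2 using hch
  have : Countable t := ht2.to_subtype
  refine ⟨range d, countable_range d, ?_, ?_⟩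
  · rintro _ ⟨y, rfl⟩
    exact hd1 y
  · intro φ ε hε
    have h1 : π φ ∈ closure t := by
      have h2 : π φ ∈ closure (π '' {s | C0 (e s)}) := by
        have h3 : φ ∈ closure {s | C0 (e s)} := hD φ
        exact image_closure_subset_closure_image hπ ⟨φ, h3, rfl⟩
      have h4 := closure_mono ht3 h2
      rwa [closure_closure] at h4
    obtain ⟨y, hy, hy2⟩ := Metric.mem_closure_iff.1 h1 ε hε
    refine ⟨d ⟨y, hy⟩, ⟨_, rfl⟩, ?_⟩
    intro γ hγ
    have h5 : dist (π φ) (π (d ⟨y, hy⟩)) < ε := by rw [hd2]; exact hy2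
    have h6 := (dist_pi_lt_iff hε).1 h5 ⟨γ, hγ⟩
    rw [dist_comm, Real.dist_eq] at h6
    exact h6

/-- the closing-off operation -/
theorem exists_G (e : B → Γ → ℝ) (he : Continuous e) (hD : Dense {s | C0 (e s)}) :
    ∃ G : Finset Γ → Set Γ, (∀ F, (G F).Countable) ∧
      ∀ F : Finset Γ, ∀ φ : B, ∀ ε : ℝ, 0 < ε → ∃ d : B, C0 (e d) ∧
        Function.support (e d) ⊆ G F ∧ ∀ γ ∈ F, |e d γ - e φ γ| < ε := by
  choose c hc1 hc2 hc3 using exists_approx e he hD
  refine ⟨fun F => ⋃ d ∈ c F, Function.support (e d), fun F => ?_, ?_⟩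
  · exact (hc1 F).biUnion fun d hd => (hc2 F d hd).countable_support
  · intro F φ ε hε
    obtain ⟨d, hd, hd2⟩ := hc3 F φ ε hε
    exact ⟨d, hc2 F d hd, subset_biUnion_of_mem (u := fun d => Function.support (e d)) hd, hd2⟩

theorem good_of_closed (e : B → Γ → ℝ) (he : Continuous e) {G : Finset Γ → Set Γ}
    (hG : ∀ F : Finset Γ, ∀ φ : B, ∀ ε : ℝ, 0 < ε → ∃ d : B, C0 (e d) ∧
        Function.support (e d) ⊆ G F ∧ ∀ γ ∈ F, |e d γ - e φ γ| < ε)
    {A : Set Γ} (hA : ClosedG G A) (φ : B) : ∃ ψ : B, e ψ = A.indicator (e φ) := by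
  classical
  have h1 : ∀ p : Finset Γ × ℕ, ∃ d : B, Function.support (e d) ⊆ A ∧
      ∀ γ ∈ p.1, γ ∈ A → |e d γ - e φ γ| < 1 / ((p.2 : ℝ) + 1) := by
    intro p
    obtain ⟨d, -, hd2, hd3⟩ := hG (p.1.filter (· ∈ A)) φ (1 / ((p.2 : ℝ) + 1)) (by positivity)
    refine ⟨d, hd2.trans (hA _ ?_), ?_⟩
    · intro γ hγ
      rw [Finset.mem_coe, Finset.mem_filter] at hγ
      exact hγ.2
    · intro γ hγ hγA
      exact hd3 γ (Finset.mem_filter.2 ⟨hγ, hγA⟩)
  choose d hd1 hd2 using h1
  have hcl : IsClosed (range e) := (isCompact_range he).isClosed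
  have hlim : Tendsto (fun p : Finset Γ × ℕ => e (d p)) atTop (𝓝 (A.indicator (e φ))) := by
    rw [tendsto_pi_nhds]
    intro γ
    by_cases hγ : γ ∈ A
    · rw [indicator_of_mem hγ, Metric.tendsto_atTop]
      intro ε hε
      obtain ⟨n, hn⟩ := exists_nat_one_div_lt hε
      refine ⟨({γ}, n), fun p hp => ?_⟩
      have hp1 : γ ∈ p.1 := hp.1 (Finset.mem_singleton_self γ)
      have hp2 : (n : ℝ) ≤ (p.2 : ℝ) := by exact_mod_cast hp.2
      have h3 := hd2 p γ hp1 hγ
      rw [Real.dist_eq]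
      have h4 : (1 : ℝ) / ((p.2 : ℝ) + 1) ≤ 1 / ((n : ℝ) + 1) := by
        apply one_div_le_one_div_of_le (by positivity)
        linarith
      linarith
    · rw [indicator_of_notMem hγ]
      have : ∀ p : Finset Γ × ℕ, e (d p) γ = 0 := by
        intro p
        by_contra hne
        exact hγ (hd1 p hne)
      simp only [this]
      exact tendsto_const_nhds
  obtain ⟨ψ, hψ⟩ := hcl.mem_of_tendsto hlim (Eventually.of_forall fun F => ⟨d F, rfl⟩)
  exact ⟨ψ, hψ⟩

/-- the retraction associated with a set of coordinates (meaningful for good sets) -/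
noncomputable def ret (e : B → Γ → ℝ) (A : Set Γ) (φ : B) : B :=
  open Classical in if h : ∃ ψ : B, e ψ = A.indicator (e φ) then h.choose else φ

/-- good sets of coordinates -/
def Good (e : B → Γ → ℝ) (A : Set Γ) : Prop := ∀ φ : B, ∃ ψ : B, e ψ = A.indicator (e φ)

omit [TopologicalSpace B] [CompactSpace B] in
theorem ret_spec {e : B → Γ → ℝ} {A : Set Γ} (hA : Good e A) (φ : B) :
    e (ret e A φ) = A.indicator (e φ) := by
  unfold ret
  rw [dif_pos (hA φ)]
  exact (hA φ).choose_spec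

theorem continuous_of_comp {e : B → Γ → ℝ} (he : Continuous e) (hinj : Function.Injective e)
    {Y : Type} [TopologicalSpace Y] {f : Y → B} (hf : Continuous fun y => e (f y)) :
    Continuous f :=
  (he.isClosedEmbedding hinj).isInducing.continuous_iff.2 hf

theorem tendsto_of_comp {e : B → Γ → ℝ} (he : Continuous e) (hinj : Function.Injective e)
    {Y : Type} {l : Filter Y} {f : Y → B} {b : B} (hf : ∀ γ, Tendsto (fun y => e (f y) γ) l (𝓝 (e b γ))) :
    Tendsto f l (𝓝 b) := by
  rw [(he.isClosedEmbedding hinj).isInducing.tendsto_nhds_iff]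
  exact tendsto_pi_nhds.2 hf

theorem continuous_ret {e : B → Γ → ℝ} (he : Continuous e) (hinj : Function.Injective e)
    {A : Set Γ} (hA : Good e A) : Continuous (ret e A) := by
  apply continuous_of_comp he hinj
  simp only [ret_spec hA]
  apply continuous_pi
  intro γ
  by_cases hγ : γ ∈ A
  · simp only [indicator_of_mem hγ]
    exact (continuous_apply γ).comp he
  · simp only [indicator_of_notMem hγ]
    exact continuous_const

end Good

end Pool.Agent.Helper47.SE
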