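import Pool.Agent.Helper47.SE.SE2

set_option autoImplicit false

open Set Topology Filter Cardinal

namespace Pool.Agent.Helper47.SE

section DD

variable {B Γ Λ : Type}

/-- doubling data: `c_0`-points `p k n` which converge to `h k` coordinatewise, for each
coordinate uniformly off a finite set -/
structure DD (K₀ : Set B) (h : B → Λ → ℝ) (p : B → ℕ → Λ → ℝ) : Prop where
  c0 : ∀ k ∈ K₀, ∀ n, C0 (p k n)
  near : ∀ l : Λ, ∀ q : ℝ, 0 < q → ∃ N : ℕ, {k ∈ K₀ | ∃ n ≥ N, q ≤ |p k n l - h k l|}.Finite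

variable {K₀ : Set B} {h : B → Λ → ℝ} {p : B → ℕ → Λ → ℝ}

/-- the threshold -/
noncomputable def DD.ν (dd : DD K₀ h p) (l : Λ) (m : ℕ) : ℕ :=
  (dd.near l (1 / ((m : ℝ) + 1)) (by positivity)).choose

/-- the exceptional set at level `m` -/
def DD.E (dd : DD K₀ h p) (l : Λ) (m : ℕ) : Set B :=
  {k ∈ K₀ | ∃ n ≥ dd.ν l m, 1 / ((m : ℝ) + 1) ≤ |p k n l - h k l|}

theorem DD.E_finite (dd : DD K₀ h p) (l : Λ) (m : ℕ) : (dd.E l m).Finite :=
  (dd.near l (1 / ((m : ℝ) + 1)) (by positivity)).choose_spec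

/-- the full exceptional set -/
def DD.EE (dd : DD K₀ h p) (l : Λ) : Set B := ⋃ m, dd.E l m

theorem DD.EE_countable (dd : DD K₀ h p) (l : Λ) : (dd.EE l).Countable :=
  countable_iUnion fun m => (dd.E_finite l m).countable

theorem DD.lt_of_notMem (dd : DD K₀ h p) {l : Λ} {m : ℕ} {k : B} (hk : k ∈ K₀)
    (hkE : k ∉ dd.E l m) {n : ℕ} (hn : dd.ν l m ≤ n) : |p k n l - h k l| < 1 / ((m : ℝ) + 1) := by
  by_contra hcon
  push Not at hcon
  exact hkE ⟨hk, n, hn, hcon⟩

/-- support of the approximating points -/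
def PP (p : B → ℕ → Λ → ℝ) (k : B) : Set Λ := ⋃ n, Function.support (p k n)

theorem DD.PP_countable (dd : DD K₀ h p) {k : B} (hk : k ∈ K₀) : (PP p k).Countable :=
  countable_iUnion fun n => (dd.c0 k hk n).countable_support

/-- Abstract limiting argument: if distinct `k i ∈ K₀` converge to `k`, then `h k` lives on the
union of the supports of the approximating points. -/
theorem DD.limit_zero (dd : DD K₀ h p) {k : ℕ → B} (hk : ∀ i, k i ∈ K₀)
    (hinj : Function.Injective k) {b : B} {l : Λ} (hlim : Tendsto (fun i => h (k i) l) atTop (𝓝 (h b l)))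
    (hl : ∀ i, l ∉ PP p (k i)) : h b l = 0 := by
  have h1 : ∀ m : ℕ, |h b l| ≤ 1 / ((m : ℝ) + 1) := by
    intro m
    have h2 : Tendsto (fun i => |h (k i) l|) atTop (𝓝 |h b l|) := hlim.abs
    apply le_of_tendsto h2
    have h3 : {i | k i ∈ dd.E l m}.Finite := (dd.E_finite l m).preimage hinj.injOn
    have h4 : ∀ᶠ i in cofinite, i ∉ {i | k i ∈ dd.E l m} := h3.eventually_cofinite_notMem
    rw [Nat.cofinite_eq_atTop] at h4
    filter_upwards [h4] with i hi
    have h5 := dd.lt_of_notMem (hk i) hi (le_refl (dd.ν l m))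
    have h6 : p (k i) (dd.ν l m) l = 0 := by
      by_contra hne
      exact hl i (mem_iUnion.2 ⟨_, hne⟩)
    rw [h6, zero_sub, abs_neg] at h5
    exact h5.le
  by_contra hne
  obtain ⟨m, hm⟩ := exists_nat_one_div_lt (abs_pos.2 hne)
  exact absurd (h1 m) (not_le.2 hm)

end DD

section Closing

variable {B Γ Λ : Type} [TopologicalSpace B] [CompactSpace B]

/-- points with countable support inside `A` -/
def K0 (e : B → Γ → ℝ) (A : Set Γ) : Set B :=
  {φ | Function.support (e φ) ⊆ A ∧ (Function.support (e φ)).Countable}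

theorem closing {e : B → Γ → ℝ} (he : Continuous e) (hinj : Function.Injective e)
    {G : Finset Γ → Set Γ} (hGc : ∀ F, (G F).Countable)
    (hG : ∀ F : Finset Γ, ∀ φ : B, ∀ ε : ℝ, 0 < ε → ∃ d : B, C0 (e d) ∧
        Function.support (e d) ⊆ G F ∧ ∀ γ ∈ F, |e d γ - e φ γ| < ε)
    {A : Set Γ} {h : B → Λ → ℝ} (hh : Continuous h)
    {p : B → ℕ → Λ → ℝ} (dd : DD (K0 e A) h p) {φ : B} (hφA : Function.support (e φ) ⊆ A)
    (hφ : ¬ (Function.support (e φ)).Countable) {Λ₀ : Set Λ} (hΛ₀ : Λ₀.Countable) :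
    ∃ y ∈ K0 e A, ∃ Λ' : Set Λ, Λ₀ ⊆ Λ' ∧ h y = Λ'.indicator (h φ) ∧
      ∀ l ∈ Λ', y ∉ dd.EE l := by
  classical
  -- coordinates determining `h · l`
  have hdet : ∀ l : Λ, ∃ F : Set Γ, F.Countable ∧ ∀ a b : B, (∀ i ∈ F, e a i = e b i) →
      h a l = h b l := fun l =>
    countable_det (fun γ b => e b γ) (fun γ => (continuous_apply γ).comp he)
      (fun a b hab => hinj (funext hab)) (fun b => h b l) ((continuous_apply l).comp hh)
  choose Δ hΔc hΔ using hdet
  have hgood : ∀ T : Set Γ, Good e (clG G T) := fun T =>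
    good_of_closed e he hG (closed_clG T)
  let y : Set Γ → B := fun T => ret e (clG G T) φ
  have hy : ∀ T, e (y T) = (clG G T).indicator (e φ) := fun T => ret_spec (hgood T) φ
  let new : Set Γ → Set Γ := fun T =>
    if hne : (Function.support (e φ) \ clG G T).Nonempty then {hne.some} else ∅
  let Φ : Set Γ → Set Γ := fun T => clG G T ∪ new T ∪
    ⋃ l ∈ (Λ₀ ∪ PP p (y T)), (Δ l ∪ ⋃ k ∈ dd.EE l, Function.support (e k))
  let T : ℕ → Set Γ := fun n => Nat.rec ∅ (fun _ S => Φ S) n
  have hTsucc : ∀ n, T (n + 1) = Φ (T n) := fun n => rfl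
  have hΦcl : ∀ S, clG G S ⊆ Φ S := fun S x hx => Or.inl (Or.inl hx)
  have hΦ : ∀ S, S ⊆ Φ S := fun S => (subset_clG S).trans (hΦcl S)
  have hTmono : Monotone T := monotone_nat_of_le_succ fun n => by rw [hTsucc]; exact hΦ _
  -- membership in `K0`
  have hyK : ∀ S : Set Γ, S.Countable → y S ∈ K0 e A := by
    intro S hS
    have h1 : Function.support (e (y S)) ⊆ clG G S ∩ Function.support (e φ) := by
      intro γ hγ
      rw [Function.mem_support, hy] at hγ
      by_cases hc : γ ∈ clG G S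
      · rw [indicator_of_mem hc] at hγ
        exact ⟨hc, hγ⟩
      · rw [indicator_of_notMem hc] at hγ
        exact absurd rfl hγ
    exact ⟨fun γ hγ => hφA (h1 hγ).2, (countable_clG hGc hS).mono fun γ hγ => (h1 hγ).1⟩
  have hTc : ∀ n, (T n).Countable := by
    intro n
    induction n with
    | zero => exact countable_empty
    | succ n ih =>
      rw [hTsucc]
      refine ((countable_clG hGc ih).union ?_).union ?_
      · change (if hne : (Function.support (e φ) \ clG G (T n)).Nonempty then {hne.some} else ∅ :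
          Set Γ).Countable
        split_ifs with hne
        · exact countable_singleton _
        · exact countable_empty
      · apply Set.Countable.biUnion (hΛ₀.union (dd.PP_countable (hyK _ ih)))
        intro l _
        apply (hΔc l).union
        apply (dd.EE_countable l).biUnion
        intro k hk
        have : k ∈ K0 e A := by
          obtain ⟨m, hm⟩ := mem_iUnion.1 hk
          exact hm.1
        exact this.2
  -- new elements
  have hnew : ∀ n, ∃ γ, γ ∈ Function.support (e φ) ∧ γ ∉ clG G (T n) ∧ γ ∈ T (n + 1) := by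
    intro n
    have hne : (Function.support (e φ) \ clG G (T n)).Nonempty := by
      rw [Set.nonempty_iff_ne_empty]
      intro h0
      rw [sdiff_eq_empty] at h0
      exact hφ ((countable_clG hGc (hTc n)).mono h0)
    refine ⟨hne.some, hne.some_mem.1, hne.some_mem.2, ?_⟩
    rw [hTsucc]
    refine Or.inl (Or.inr ?_)
    change hne.some ∈ (if hne : (Function.support (e φ) \ clG G (T n)).Nonempty then {hne.some}
      else ∅ : Set Γ)
    rw [dif_pos hne]
    exact mem_singleton _
  choose γn hγ1 hγ2 hγ3 using hnew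
  -- the limit set
  have hTωc : (⋃ n, T n).Countable := countable_iUnion hTc
  have hTωcl : ClosedG G (⋃ n, T n) := by
    apply closed_iUnion hTmono
    intro n
    refine ⟨n + 1, fun F hF => ?_⟩
    rw [hTsucc]
    exact ((closed_clG (T n)) F (hF.trans (subset_clG _))).trans (hΦcl _)
  have hgω : Good e (⋃ n, T n) := good_of_closed e he hG hTωcl
  set yω : B := ret e (⋃ n, T n) φ with hyωdef
  have hyω : e yω = (⋃ n, T n).indicator (e φ) := ret_spec hgω φ
  have hyωK : yω ∈ K0 e A := by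
    have h1 : Function.support (e yω) ⊆ (⋃ n, T n) ∩ Function.support (e φ) := by
      intro γ hγ
      rw [Function.mem_support, hyω] at hγ
      by_cases hc : γ ∈ ⋃ n, T n
      · rw [indicator_of_mem hc] at hγ
        exact ⟨hc, hγ⟩
      · rw [indicator_of_notMem hc] at hγ
        exact absurd rfl hγ
    exact ⟨fun γ hγ => hφA (h1 hγ).2, hTωc.mono fun γ hγ => (h1 hγ).1⟩
  have hsub : ∀ n l, l ∈ Λ₀ ∪ PP p (y (T n)) → Δ l ∪ (⋃ k ∈ dd.EE l, Function.support (e k)) ⊆
      T (n + 1) := by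
    intro n l hl γ hγ
    rw [hTsucc]
    exact Or.inr (mem_iUnion.2 ⟨l, mem_iUnion.2 ⟨hl, hγ⟩⟩)
  -- injectivity of `y (T n)`
  have hlt : ∀ n m, n < m → y (T n) ≠ y (T m) := by
    intro n m hnm heq
    have h1 : e (y (T n)) (γn n) = e (y (T m)) (γn n) := by rw [heq]
    rw [hy, hy, indicator_of_notMem (hγ2 n), indicator_of_mem
      (subset_clG _ (hTmono (Nat.succ_le_of_lt hnm) (hγ3 n)))] at h1
    exact hγ1 n h1.symm
  have hyinj : Function.Injective fun n => y (T n) := by
    intro n m hnm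
    by_contra hne
    rcases lt_or_gt_of_ne hne with h1 | h1
    · exact hlt n m h1 hnm
    · exact hlt m n h1 hnm.symm
  -- convergence
  have hlim : Tendsto (fun n => y (T n)) atTop (𝓝 yω) := by
    apply tendsto_of_comp he hinj
    intro γ
    by_cases hγ : γ ∈ ⋃ n, T n
    · obtain ⟨n, hn⟩ := mem_iUnion.1 hγ
      rw [hyω, indicator_of_mem hγ]
      apply tendsto_const_nhds.congr'
      filter_upwards [eventually_ge_atTop n] with m hm
      rw [hy, indicator_of_mem (subset_clG _ (hTmono hm hn))]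
    · rw [hyω, indicator_of_notMem hγ]
      apply tendsto_const_nhds.congr'
      filter_upwards with m
      rw [hy, indicator_of_notMem]
      intro hm
      exact hγ (mem_iUnion.2 ⟨m + 1, by rw [hTsucc]; exact hΦcl _ hm⟩)
  refine ⟨yω, hyωK, Λ₀ ∪ ⋃ n, PP p (y (T n)), subset_union_left, ?_, ?_⟩
  · funext l
    by_cases hl : l ∈ Λ₀ ∪ ⋃ n, PP p (y (T n))
    · rw [indicator_of_mem hl]
      obtain ⟨n, hn⟩ : ∃ n, l ∈ Λ₀ ∪ PP p (y (T n)) := by
        rcases hl with hl | hl
        · exact ⟨0, Or.inl hl⟩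
        · obtain ⟨n, hn⟩ := mem_iUnion.1 hl
          exact ⟨n, Or.inr hn⟩
      apply hΔ l
      intro γ hγ
      have h1 : γ ∈ ⋃ n, T n := mem_iUnion.2 ⟨n + 1, hsub n l hn (Or.inl hγ)⟩
      rw [hyω, indicator_of_mem h1]
    · rw [indicator_of_notMem hl]
      apply dd.limit_zero (k := fun n => y (T n)) (fun n => hyK _ (hTc n)) hyinj
      · exact ((continuous_apply l).comp hh).continuousAt.tendsto.comp hlim
      · intro n hn
        exact hl (Or.inr (mem_iUnion.2 ⟨n, hn⟩))
  · intro l hl hE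
    obtain ⟨n, hn⟩ : ∃ n, l ∈ Λ₀ ∪ PP p (y (T n)) := by
      rcases hl with hl | hl
      · exact ⟨0, Or.inl hl⟩
      · obtain ⟨n, hn⟩ := mem_iUnion.1 hl
        exact ⟨n, Or.inr hn⟩
    have h1 : Function.support (e yω) ⊆ T (n + 1) := by
      intro γ hγ
      exact hsub n l hn (Or.inr (mem_iUnion.2 ⟨yω, mem_iUnion.2 ⟨hE, hγ⟩⟩))
    have h2 : γn (n + 1) ∈ Function.support (e yω) := by
      rw [Function.mem_support, hyω, indicator_of_mem (mem_iUnion.2 ⟨n + 2, hγ3 (n + 1)⟩)]
      exact hγ1 (n + 1)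
    exact hγ2 (n + 1) (subset_clG _ (h1 h2))

/-- Step 1: under doubling data every point of `K` has countable support. -/
theorem all_countable {e : B → Γ → ℝ} (he : Continuous e) (hinj : Function.Injective e)
    {G : Finset Γ → Set Γ} (hGc : ∀ F, (G F).Countable)
    (hG : ∀ F : Finset Γ, ∀ φ : B, ∀ ε : ℝ, 0 < ε → ∃ d : B, C0 (e d) ∧
        Function.support (e d) ⊆ G F ∧ ∀ γ ∈ F, |e d γ - e φ γ| < ε)
    {A : Set Γ} {h : B → Λ → ℝ} (hh : Continuous h) (hhinj : Function.Injective h)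
    (hh0 : ∀ b l, 0 ≤ h b l)
    {p : B → ℕ → Λ → ℝ} (dd : DD (K0 e A) h p) {φ : B} (hφA : Function.support (e φ) ⊆ A) :
    (Function.support (e φ)).Countable := by
  by_contra hφ
  -- the support of `h φ` is uncountable
  have h1 : ¬ (Function.support (h φ)).Countable := by
    intro hc
    obtain ⟨y, hy, Λ', hΛ', hyh, -⟩ := closing he hinj hGc hG hh dd hφA hφ hc
    have h2 : h y = h φ := by
      rw [hyh]
      funext l
      by_cases hl : l ∈ Λ'
      · rw [indicator_of_mem hl]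
      · rw [indicator_of_notMem hl]
        by_contra hne
        exact hl (hΛ' (Ne.symm hne))
    rw [hhinj h2] at hy
    exact hφ hy.2
  -- an infinite homogeneous part
  have h2 : ∃ m n : ℕ, {l | 2 / ((m : ℝ) + 1) < h φ l ∧ dd.ν l m = n}.Infinite := by
    by_contra hcon
    push Not at hcon
    apply h1
    have h3 : Function.support (h φ) ⊆ ⋃ m : ℕ, ⋃ n : ℕ,
        {l | 2 / ((m : ℝ) + 1) < h φ l ∧ dd.ν l m = n} := by
      intro l hl
      have hpos : 0 < h φ l := lt_of_le_of_ne (hh0 φ l) (Ne.symm hl)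
      obtain ⟨m, hm⟩ := exists_nat_one_div_lt (half_pos hpos)
      refine mem_iUnion.2 ⟨m, mem_iUnion.2 ⟨dd.ν l m, ?_, rfl⟩⟩
      have h4 : (2 : ℝ) / ((m : ℝ) + 1) = 2 * (1 / ((m : ℝ) + 1)) := by ring
      rw [h4]
      linarith
    exact (countable_iUnion fun m => countable_iUnion fun n =>
      (hcon m n).countable).mono h3
  obtain ⟨m, n, hinf⟩ := h2
  let f := hinf.natEmbedding
  have hΛ₀ : (range fun i => (f i : Λ)).Countable := countable_range _
  obtain ⟨y, hy, Λ', hΛ', hyh, hyE⟩ := closing he hinj hGc hG hh dd hφA hφ hΛ₀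
  have h3 : (range fun i => (f i : Λ)) ⊆ {l | 1 / ((m : ℝ) + 1) ≤ |p y n l|} := by
    rintro _ ⟨i, rfl⟩
    have h4 := (f i).2
    have h4' : 2 / ((m : ℝ) + 1) < h φ (f i) ∧ dd.ν (f i) m = n := h4
    have h5 : (f i : Λ) ∈ Λ' := hΛ' ⟨i, rfl⟩
    have h6 : y ∉ dd.E (f i) m := fun hE => hyE _ h5 (mem_iUnion.2 ⟨m, hE⟩)
    have h7 := dd.lt_of_notMem hy h6 (n := n) h4'.2.le
    have h8 : h y (f i) = h φ (f i) := by rw [hyh, indicator_of_mem h5]
    rw [h8] at h7
    have h9 : (2 : ℝ) / ((m : ℝ) + 1) = 2 * (1 / ((m : ℝ) + 1)) := by ring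
    have h10 := (abs_lt.1 h7).1
    have h11 := h4'.1
    show 1 / ((m : ℝ) + 1) ≤ |p y n (f i)|
    exact le_trans (by linarith) (le_abs_self _)
  have h4 := ((dd.c0 y hy n).finite (ε := 1 / ((m : ℝ) + 1)) (by positivity)).subset h3
  have h5 : (range fun i => (f i : Λ)).Infinite :=
    Set.infinite_range_of_injective (fun i j hij => f.injective (Subtype.ext hij))
  exact h5 h4

end Closing

end Pool.Agent.Helper47.SE
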