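import Pool.Agent.Helper47.SE.SE3

set_option autoImplicit false

open Set Topology Filter Cardinal

namespace Pool.Agent.Helper47.SE

section Comp

variable {Λ : Type}

theorem countable_reach {R : Λ → Λ → Prop} (hR : ∀ l, {l' | R l l'}.Countable) (l : Λ) :
    {l' | Relation.ReflTransGen R l l'}.Countable := by
  let S : ℕ → Set Λ := fun n => Nat.rec {l} (fun _ T => ⋃ b ∈ T, {c | R b c}) n
  have hS : ∀ n, (S n).Countable := by
    intro n
    induction n with
    | zero => exact countable_singleton l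
    | succ n ih => exact ih.biUnion fun b _ => hR b
  refine (countable_iUnion hS).mono ?_
  intro l' hl'
  have hl'' : Relation.ReflTransGen R l l' := hl'
  clear hl'
  induction hl'' with
  | refl => exact mem_iUnion.2 ⟨0, rfl⟩
  | tail _ hbc ih =>
    obtain ⟨n, hn⟩ := mem_iUnion.1 ih
    exact mem_iUnion.2 ⟨n + 1, mem_iUnion.2 ⟨_, mem_iUnion.2 ⟨hn, hbc⟩⟩⟩

/-- a numbering which is injective on the components of a locally countable symmetric relation -/
theorem exists_num {R : Λ → Λ → Prop} (hR : ∀ l, {l' | R l l'}.Countable)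
    (hsymm : ∀ l l', R l l' → R l' l) :
    ∃ num : Λ → ℕ, ∀ l l', R l l' → num l = num l' → l = l' := by
  let s : Setoid Λ :=
    { r := Relation.ReflTransGen R
      iseqv := ⟨fun _ => Relation.ReflTransGen.refl,
        fun {a b} h => by
          induction h with
          | refl => exact Relation.ReflTransGen.refl
          | tail _ hbc ih => exact Relation.ReflTransGen.head (hsymm _ _ hbc) ih,
        fun h1 h2 => h1.trans h2⟩ }
  have hc : ∀ q : Quotient s, ∃ f : Λ → ℕ, InjOn f {l | Quotient.mk s l = q} := by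
    intro q
    obtain ⟨l, rfl⟩ := Quotient.exists_rep q
    apply Set.countable_iff_exists_injOn.1
    refine (countable_reach hR l).mono ?_
    intro l' hl'
    have h1 : Quotient.mk s l = Quotient.mk s l' := Eq.symm hl'
    exact Quotient.exact h1
  choose f hf using hc
  refine ⟨fun l => f (Quotient.mk s l) l, ?_⟩
  intro l l' hll' hnum
  have h1 : Quotient.mk s l = Quotient.mk s l' :=
    Quotient.sound (s := s) (Relation.ReflTransGen.single hll')
  have h2 : f (Quotient.mk s l) l = f (Quotient.mk s l) l' := by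
    have h3 : f (Quotient.mk s l) l' = f (Quotient.mk s l') l' := by rw [h1]
    rw [h3]
    exact hnum
  exact hf (Quotient.mk s l) rfl h1.symm h2

end Comp

section Fam

variable {B Λ : Type}

/-- the truncated functions -/
noncomputable def gf (h : B → Λ → ℝ) (x : Λ × ℕ) (b : B) : ℝ := max (h b x.1 - 2 / ((x.2 : ℝ) + 1)) 0

theorem gf_sep {h : B → Λ → ℝ} (hhinj : Function.Injective h) (hh0 : ∀ b l, 0 ≤ h b l) {a b : B}
    (hab : ∀ x, gf h x a = gf h x b) : a = b := by
  have key : ∀ a b : B, (∀ x, gf h x a = gf h x b) → ∀ l, h a l ≤ h b l := by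
    intro a b hab l
    by_contra hcon
    push Not at hcon
    have hpos : 0 < h a l := lt_of_le_of_lt (hh0 b l) hcon
    obtain ⟨m, hm⟩ := exists_nat_one_div_lt (half_pos hpos)
    have h4 : (2 : ℝ) / ((m : ℝ) + 1) = 2 * (1 / ((m : ℝ) + 1)) := by ring
    have h5 := hab (l, m)
    simp only [gf] at h5
    have h6 : max (h a l - 2 / ((m : ℝ) + 1)) 0 = h a l - 2 / ((m : ℝ) + 1) := by
      apply max_eq_left
      rw [h4]; linarith
    rw [h6] at h5
    have h7 : max (h b l - 2 / ((m : ℝ) + 1)) 0 < h a l - 2 / ((m : ℝ) + 1) := by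
      apply max_lt
      · linarith
      · rw [h4]; linarith
    linarith
  apply hhinj
  funext l
  exact le_antisymm (key a b hab l) (key b a (fun x => (hab x).symm) l)

variable {K : Set B} {h : B → Λ → ℝ} {p : B → ℕ → Λ → ℝ}

theorem DD.EE_subset (dd : DD K h p) (k : B) : {l | k ∈ dd.EE l} ⊆ PP p k ∪ Function.support (h k) := by
  intro l hl
  by_contra hcon
  rw [mem_union, not_or] at hcon
  obtain ⟨m, hm⟩ := mem_iUnion.1 hl
  obtain ⟨-, n, -, hn⟩ := hm
  have h1 : p k n l = 0 := by
    by_contra hne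
    exact hcon.1 (mem_iUnion.2 ⟨n, hne⟩)
  have h2 : h k l = 0 := by
    by_contra hne
    exact hcon.2 hne
  rw [h1, h2, sub_zero, abs_zero] at hn
  have : (0 : ℝ) < 1 / ((m : ℝ) + 1) := by positivity
  linarith

/-- Step 2: if all `h k` (`k ∈ K`) have countable support the truncated functions split into
countably many families which are point-finite on `K`. -/
theorem DD.families (dd : DD K h p) (hs : ∀ k ∈ K, (Function.support (h k)).Countable) :
    ∃ lev : Λ × ℕ → ℕ, ∀ k ∈ K, ∀ j, {x | lev x = j ∧ gf h x k ≠ 0}.Finite := by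
  let R : Λ → Λ → Prop := fun l l' => ∃ k ∈ K, k ∈ dd.EE l ∧ k ∈ dd.EE l'
  have hR : ∀ l, {l' | R l l'}.Countable := by
    intro l
    have h1 : {l' | R l l'} ⊆ ⋃ k ∈ dd.EE l, {l' | k ∈ dd.EE l'} := by
      rintro l' ⟨k, hk, hk1, hk2⟩
      exact mem_iUnion.2 ⟨k, mem_iUnion.2 ⟨hk1, hk2⟩⟩
    refine Set.Countable.mono h1 ((dd.EE_countable l).biUnion fun k hk => ?_)
    have hkK : k ∈ K := by
      obtain ⟨m, hm⟩ := mem_iUnion.1 hk
      exact hm.1
    exact ((dd.PP_countable hkK).union (hs k hkK)).mono (dd.EE_subset k)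
  obtain ⟨num, hnum⟩ := exists_num hR (fun l l' ⟨k, hk, h1, h2⟩ => ⟨k, hk, h2, h1⟩)
  refine ⟨fun x => Nat.pair x.2 (Nat.pair (dd.ν x.1 x.2) (num x.1)), ?_⟩
  intro k hk j
  -- decompose
  set m := (Nat.unpair j).1 with hm
  set n := (Nat.unpair (Nat.unpair j).2).1 with hn
  set c := (Nat.unpair (Nat.unpair j).2).2 with hc
  have h1 : {x : Λ × ℕ | Nat.pair x.2 (Nat.pair (dd.ν x.1 x.2) (num x.1)) = j ∧ gf h x k ≠ 0} ⊆
      (fun l => (l, m)) '' ({l | k ∈ dd.EE l ∧ num l = c} ∪ {l | 1 / ((m : ℝ) + 1) ≤ |p k n l|}) := by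
    rintro ⟨l, m'⟩ ⟨hx1, hx2⟩
    simp only at hx1
    have e1 : m' = m := by rw [hm, ← hx1, Nat.unpair_pair]
    have e2 : dd.ν l m = n := by rw [hn, ← hx1, Nat.unpair_pair, Nat.unpair_pair, e1]
    have e3 : num l = c := by rw [hc, ← hx1, Nat.unpair_pair, Nat.unpair_pair]
    subst e1
    refine ⟨l, ?_, rfl⟩
    by_cases hE : k ∈ dd.E l m
    · exact Or.inl ⟨mem_iUnion.2 ⟨m, hE⟩, e3⟩
    · right
      have h2 := dd.lt_of_notMem hk hE (n := n) e2.le
      have h3 : 2 / ((m : ℝ) + 1) < h k l := by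
        by_contra hcon
        push Not at hcon
        apply hx2
        simp only [gf]
        exact max_eq_right (by linarith)
      have h4 : (2 : ℝ) / ((m : ℝ) + 1) = 2 * (1 / ((m : ℝ) + 1)) := by ring
      have h5 := (abs_lt.1 h2).1
      have h6 : 1 / ((m : ℝ) + 1) ≤ p k n l := by linarith
      exact h6.trans (le_abs_self _)
  refine Set.Finite.subset (Set.Finite.image _ (Set.Finite.union ?_ ?_)) h1
  · apply Set.Subsingleton.finite
    intro l hl l' hl'
    exact hnum l l' ⟨k, hk, hl.1, hl'.1⟩ (hl.2.trans hl'.2.symm)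
  · exact (dd.c0 k hk n).finite (by positivity)

variable [TopologicalSpace B]

theorem DD.support_countable (dd : DD K h p) (hh : Continuous h) {k : B} {s : ℕ → B}
    (hsK : ∀ i, s i ∈ K) (hsi : Function.Injective s) (hst : Tendsto s atTop (𝓝 k)) :
    (Function.support (h k)).Countable := by
  refine (countable_iUnion fun i => dd.PP_countable (hsK i)).mono ?_
  intro l hl
  by_contra hcon
  apply hl
  apply dd.limit_zero hsK hsi
  · exact ((continuous_apply l).comp hh).continuousAt.tendsto.comp hst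
  · intro i hi
    exact hcon (mem_iUnion.2 ⟨i, hi⟩)

theorem continuous_gf (hh : Continuous h) (x : Λ × ℕ) : Continuous (gf h x) := by
  unfold gf
  exact (((continuous_apply x.1).comp hh).sub continuous_const).max continuous_const

end Fam

end Pool.Agent.Helper47.SE
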