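import Pool.Agent.Helper47.SE.Maj
import Pool.Agent.Helper47.SE.SE1

set_option autoImplicit false

open Set Topology Filter Cardinal MeasureTheory
open scoped ENNReal

namespace Pool.Agent.Helper47.SE

open Pool.Agent.Helper47.Maj

section DCT

variable {K : Type} [TopologicalSpace K] [CompactSpace K] [T2Space K]

/-- inclusion of `C(K)` into the bounded functions -/
noncomputable def incl (K : Type) [TopologicalSpace K] [CompactSpace K] :
    C(K, ℝ) →ₗᵢ[ℝ] Linf K where
  toFun := fun f => pull id f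
  map_add' := fun f g => rfl
  map_smul' := fun c f => rfl
  norm_map' := by
    intro f
    change ‖pull id f‖ = ‖f‖
    apply le_antisymm
    · apply linf_norm_le (norm_nonneg _)
      intro n
      exact f.norm_coe_le_norm n
    · apply (ContinuousMap.norm_le f (norm_nonneg _)).2
      intro x
      exact linf_apply_le (pull id f) x

/-- Every functional on `C(K)` is a difference of two integrals. -/
theorem exists_measures [MeasurableSpace K] [BorelSpace K] (μ : C(K, ℝ) →L[ℝ] ℝ) :
    ∃ m₁ m₂ : Measure K, IsFiniteMeasure m₁ ∧ IsFiniteMeasure m₂ ∧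
      ∀ f : C(K, ℝ), μ f = ∫ x, f x ∂m₁ - ∫ x, f x ∂m₂ := by
  let L := incl K
  let f₀ : (LinearMap.range L.toLinearMap) →L[ℝ] ℝ :=
    μ.comp (L.equivRange.symm.toContinuousLinearEquiv : (LinearMap.range L.toLinearMap) →L[ℝ] C(K, ℝ))
  obtain ⟨y, hy, -⟩ := exists_extension_norm_eq (LinearMap.range L.toLinearMap) f₀
  have hyL : ∀ f : C(K, ℝ), y (pull id f) = μ f := by
    intro f
    have h1 : y (L f) = f₀ ⟨L f, ⟨f, rfl⟩⟩ := hy ⟨L f, ⟨f, rfl⟩⟩
    have h2 : L.equivRange.symm ⟨L f, ⟨f, rfl⟩⟩ = f := by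
      rw [LinearIsometryEquiv.symm_apply_eq]
      rfl
    have h3 : f₀ ⟨L f, ⟨f, rfl⟩⟩ = μ f := by
      change μ (L.equivRange.symm ⟨L f, ⟨f, rfl⟩⟩) = μ f
      rw [h2]
    rw [← h3, ← h1]
    rfl
  obtain ⟨ρ, hρ, -⟩ := exists_majorant y
  obtain ⟨m₁, hm1, hm1'⟩ := exists_meas (id : K → K) (Pos.of_majorant hρ)
  obtain ⟨m₂, hm2, hm2'⟩ := exists_meas (id : K → K) (Pos.sub_of_majorant hρ)
  refine ⟨m₁, m₂, hm1, hm2, ?_⟩
  intro f
  rw [hm1', hm2', sub_apply, ← hyL]
  ring

/-- bounded families which are pointwise null are weakly null -/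
theorem weakly_null {S : Type} (w : S → C(K, ℝ)) {C : ℝ} (hC : ∀ s, ‖w s‖ ≤ C)
    (hw : ∀ b, C0 (fun s => w s b)) (μ : C(K, ℝ) →L[ℝ] ℝ) : C0 (fun s => μ (w s)) := by
  let _ : MeasurableSpace K := borel K
  have _ : BorelSpace K := ⟨rfl⟩
  apply C0.of_finite
  intro ε hε
  by_contra hinf
  have hinf' : {s | ε ≤ |μ (w s)|}.Infinite := hinf
  let f := hinf'.natEmbedding
  have hfinj : Function.Injective fun i => (f i : S) := fun i j hij => f.injective (Subtype.ext hij)
  obtain ⟨m₁, m₂, h1, h2, hμ⟩ := exists_measures μ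
  have hpt : ∀ b, Tendsto (fun i => w (f i) b) atTop (𝓝 0) := by
    intro b
    have h3 : Tendsto (fun s => w s b) cofinite (𝓝 0) := hw b
    have h4 := h3.comp hfinj.tendsto_cofinite
    rw [Nat.cofinite_eq_atTop] at h4
    exact h4
  have hint : ∀ m : Measure K, IsFiniteMeasure m →
      Tendsto (fun i => ∫ x, w (f i) x ∂m) atTop (𝓝 0) := by
    intro m hm
    have h5 : Tendsto (fun i => ∫ x, w (f i) x ∂m) atTop (𝓝 (∫ _, (0 : ℝ) ∂m)) := by
      apply tendsto_integral_of_dominated_convergence (fun _ => C)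
      · intro i
        exact ((w (f i)).continuous.measurable).aestronglyMeasurable
      · exact integrable_const C
      · intro i
        exact Eventually.of_forall fun x => ((w (f i)).norm_coe_le_norm x).trans (hC _)
      · exact Eventually.of_forall hpt
    simpa using h5
  have hlim : Tendsto (fun i => μ (w (f i))) atTop (𝓝 0) := by
    have h6 := (hint m₁ h1).sub (hint m₂ h2)
    rw [sub_zero] at h6
    refine h6.congr fun i => ?_
    rw [hμ]
  have h7 := (Metric.tendsto_atTop.1 hlim) ε hε
  obtain ⟨N, hN⟩ := h7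
  have h8 := hN N le_rfl
  rw [Real.dist_eq, sub_zero] at h8
  have h9 : ε ≤ |μ (w (f N))| := (f N).2
  linarith

theorem isCompact_weak {S : Type} (w : S → C(K, ℝ)) {C : ℝ} (hC : ∀ s, ‖w s‖ ≤ C)
    (hw : ∀ b, C0 (fun s => w s b)) :
    IsCompact (toWeakSpace ℝ C(K, ℝ) '' (insert 0 (range w))) := by
  have h1 : Tendsto (fun s => toWeakSpace ℝ C(K, ℝ) (w s)) cofinite
      (𝓝 (toWeakSpace ℝ C(K, ℝ) 0)) := by
    have hind : IsInducing (fun (x : WeakSpace ℝ C(K, ℝ)) (y : C(K, ℝ) →L[ℝ] ℝ) =>
        (topDualPairing ℝ C(K, ℝ)).flip x y) := ⟨rfl⟩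
    rw [hind.tendsto_nhds_iff, tendsto_pi_nhds]
    intro μ
    have h2 : Tendsto (fun s => μ (w s)) cofinite (𝓝 0) := weakly_null w hC hw μ
    have h3 : μ (0 : C(K, ℝ)) = 0 := map_zero μ
    rw [← h3] at h2
    exact h2
  have h2 := h1.isCompact_insert_range_of_cofinite
  have h3 : toWeakSpace ℝ C(K, ℝ) '' (insert 0 (range w)) =
      insert (toWeakSpace ℝ C(K, ℝ) 0) (range fun s => toWeakSpace ℝ C(K, ℝ) (w s)) := by
    rw [image_insert_eq, ← range_comp]
    rfl
  rw [h3]
  exact h2

end DCT

section WCG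

variable {K : Type} [TopologicalSpace K] [CompactSpace K]

theorem finite_multisets {J : Type} {u : J → ℝ} (h0 : ∀ x, 0 ≤ u x) (h1 : ∀ x, u x ≤ 1 / 2)
    (hu : ∀ ε : ℝ, 0 < ε → {x | ε ≤ u x}.Finite) {ε : ℝ} (hε : 0 < ε) :
    {s : Multiset J | ε ≤ (s.map u).prod}.Finite := by
  classical
  obtain ⟨N, hN⟩ := exists_pow_lt_of_lt_one hε (show (1 / 2 : ℝ) < 1 by norm_num)
  have hprod0 : ∀ s : Multiset J, 0 ≤ (s.map u).prod := fun s =>
    Multiset.prod_nonneg (fun a ha => by
      obtain ⟨x, -, rfl⟩ := Multiset.mem_map.1 ha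
      exact h0 x)
  have hprod1 : ∀ s : Multiset J, (s.map u).prod ≤ (1 / 2) ^ (Multiset.card s) := by
    intro s
    induction s using Multiset.induction_on with
    | empty => simp
    | cons a s ih =>
      rw [Multiset.map_cons, Multiset.prod_cons, Multiset.card_cons, pow_succ, mul_comm]
      exact mul_le_mul ih (h1 a) (h0 a) (by positivity)
  have hprod2 : ∀ s : Multiset J, (s.map u).prod ≤ 1 := fun s =>
    (hprod1 s).trans (pow_le_one₀ (by norm_num) (by norm_num))
  set F := (hu ε hε).toFinset with hF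
  have hsub : {s : Multiset J | ε ≤ (s.map u).prod} ⊆
      (((N • F.val).powerset).toFinset : Set (Multiset J)) := by
    intro s hs
    have hs' : ε ≤ (s.map u).prod := hs
    rw [Finset.mem_coe, Multiset.mem_toFinset, Multiset.mem_powerset, Multiset.le_iff_count]
    intro a
    by_cases ha : a ∈ s
    · have h2 : ε ≤ u a := by
        rw [← Multiset.cons_erase ha, Multiset.map_cons, Multiset.prod_cons] at hs'
        calc ε ≤ u a * ((s.erase a).map u).prod := hs'
          _ ≤ u a * 1 := mul_le_mul_of_nonneg_left (hprod2 _) (h0 a)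
          _ = u a := mul_one _
      have h3 : a ∈ F.val := by
        rw [Finset.mem_val, hF, Set.Finite.mem_toFinset]
        exact h2
      have h4 : Multiset.card s < N := by
        by_contra hcon
        push Not at hcon
        have h5 := hprod1 s
        have h6 : (1 / 2 : ℝ) ^ (Multiset.card s) ≤ (1 / 2) ^ N :=
          pow_le_pow_of_le_one (by norm_num) (by norm_num) hcon
        linarith
      rw [Multiset.count_nsmul, Multiset.count_eq_one_of_mem F.nodup h3, mul_one]
      exact (Multiset.count_le_card a s).trans h4.le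
    · rw [Multiset.count_eq_zero_of_notMem ha]
      exact Nat.zero_le _
  exact (Finset.finite_toSet _).subset hsub

/-- A compact space with a separating countable union of point-finite families of continuous
functions: `C(K)` is weakly compactly generated. -/
theorem wcg_of_families [T2Space K] {J : Type} (lev : J → ℕ) (g : J → K → ℝ)
    (hgc : ∀ x, Continuous (g x)) (hg0 : ∀ x b, 0 ≤ g x b)
    (hfin : ∀ b j, {x | lev x = j ∧ g x b ≠ 0}.Finite)
    (hsep : ∀ a b, (∀ x, g x a = g x b) → a = b) :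
    ∃ W : Set C(K, ℝ), IsCompact (toWeakSpace ℝ C(K, ℝ) '' W) ∧
      Dense (Submodule.span ℝ W : Set C(K, ℝ)) := by
  let g' : J → C(K, ℝ) := fun x => ⟨g x, hgc x⟩
  let c : J → ℝ := fun x => (1 / 2) ^ (lev x + 1) / (1 + ‖g' x‖)
  have hc : ∀ x, 0 < c x := fun x => by
    have := norm_nonneg (g' x)
    positivity
  let u : J → C(K, ℝ) := fun x => c x • g' x
  have hu0 : ∀ x b, 0 ≤ u x b := fun x b => mul_nonneg (hc x).le (hg0 x b)
  have hu1 : ∀ x b, u x b ≤ (1 / 2) ^ (lev x + 1) := by
    intro x b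
    have h1 : g x b ≤ ‖g' x‖ := (le_abs_self _).trans ((g' x).norm_coe_le_norm b)
    have h2 := norm_nonneg (g' x)
    calc u x b = (1 / 2) ^ (lev x + 1) / (1 + ‖g' x‖) * g x b := rfl
      _ ≤ (1 / 2) ^ (lev x + 1) / (1 + ‖g' x‖) * (1 + ‖g' x‖) := by
          gcongr
          linarith
      _ = (1 / 2) ^ (lev x + 1) := by
          field_simp
  have hu2 : ∀ x b, u x b ≤ 1 / 2 := by
    intro x b
    refine (hu1 x b).trans ?_
    rw [pow_succ]
    have : (1 / 2 : ℝ) ^ (lev x) ≤ 1 := pow_le_one₀ (by norm_num) (by norm_num)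
    linarith
  have hufin : ∀ b, ∀ ε : ℝ, 0 < ε → {x | ε ≤ u x b}.Finite := by
    intro b ε hε
    obtain ⟨N, hN⟩ := exists_pow_lt_of_lt_one hε (show (1 / 2 : ℝ) < 1 by norm_num)
    have h1 : {x | ε ≤ u x b} ⊆ ⋃ j ∈ Finset.range N, {x | lev x = j ∧ g x b ≠ 0} := by
      intro x hx
      have hx' : ε ≤ u x b := hx
      have h2 : lev x < N := by
        by_contra hcon
        push Not at hcon
        have h3 : (1 / 2 : ℝ) ^ (lev x + 1) ≤ (1 / 2) ^ N :=
          pow_le_pow_of_le_one (by norm_num) (by norm_num) (by omega)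
        linarith [hu1 x b]
      have h4 : g x b ≠ 0 := by
        intro h0
        have : u x b = 0 := by
          change c x * g x b = 0
          rw [h0, mul_zero]
        linarith
      exact mem_iUnion₂.2 ⟨lev x, Finset.mem_range.2 h2, rfl, h4⟩
    exact ((Finset.range N).finite_toSet.biUnion fun j _ => hfin b j).subset h1
  -- the weakly compact set
  let w : Multiset J → C(K, ℝ) := fun s => (s.map u).prod
  have hwb : ∀ s b, w s b = (s.map fun x => u x b).prod := by
    intro s b
    induction s using Multiset.induction_on with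
    | empty => simp [w]
    | cons a s ih =>
      have : w (a ::ₘ s) = u a * w s := by
        simp only [w, Multiset.map_cons, Multiset.prod_cons]
      rw [this, ContinuousMap.mul_apply, ih, Multiset.map_cons, Multiset.prod_cons]
  have hw0 : ∀ s b, 0 ≤ w s b := by
    intro s b
    rw [hwb]
    exact Multiset.prod_nonneg (fun a ha => by
      obtain ⟨x, -, rfl⟩ := Multiset.mem_map.1 ha
      exact hu0 x b)
  have hw1 : ∀ s b, w s b ≤ 1 := by
    intro s b
    induction s using Multiset.induction_on with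
    | empty => simp [w]
    | cons a s ih =>
      have : w (a ::ₘ s) = u a * w s := by
        simp only [w, Multiset.map_cons, Multiset.prod_cons]
      rw [this, ContinuousMap.mul_apply]
      have h1 := hu2 a b
      have h2 := hu0 a b
      have h3 := hw0 s b
      nlinarith
  have hnorm : ∀ s, ‖w s‖ ≤ 1 := by
    intro s
    rw [ContinuousMap.norm_le _ zero_le_one]
    intro b
    rw [Real.norm_eq_abs, abs_of_nonneg (hw0 s b)]
    exact hw1 s b
  have hc0 : ∀ b, C0 (fun s => w s b) := by
    intro b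
    apply C0.of_finite
    intro ε hε
    refine (finite_multisets (fun x => hu0 x b) (fun x => hu2 x b) (hufin b) hε).subset ?_
    intro s hs
    have hs' : ε ≤ |w s b| := hs
    rw [abs_of_nonneg (hw0 s b), hwb] at hs'
    exact hs'
  refine ⟨insert 0 (range w), isCompact_weak w hnorm hc0, ?_⟩
  -- density by Stone-Weierstrass
  let S : Subalgebra ℝ C(K, ℝ) := Algebra.adjoin ℝ (range u)
  have hS : (S : Set C(K, ℝ)) ⊆ Submodule.span ℝ (insert 0 (range w)) := by
    intro f hf
    have hf' : f ∈ Subalgebra.toSubmodule S := hf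
    rw [Algebra.adjoin_eq_span] at hf'
    refine Submodule.span_mono ?_ hf'
    intro v hv
    right
    have hv' : v ∈ Submonoid.closure (range u) := hv
    induction hv' using Submonoid.closure_induction with
    | mem x hx =>
      obtain ⟨j, rfl⟩ := hx
      exact ⟨{j}, by simp [w]⟩
    | one => exact ⟨0, by simp [w]⟩
    | mul x y _ _ hx hy =>
      obtain ⟨s, rfl⟩ := hx (by assumption)
      obtain ⟨t, rfl⟩ := hy (by assumption)
      exact ⟨s + t, by simp [w]⟩
  have hdense : Dense (S : Set C(K, ℝ)) := by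
    have h1 := ContinuousMap.subalgebra_topologicalClosure_eq_top_of_separatesPoints S (by
      intro a b hab
      have h2 : ∃ x, g x a ≠ g x b := by
        by_contra hcon
        push Not at hcon
        exact hab (hsep a b hcon)
      obtain ⟨x, hx⟩ := h2
      refine ⟨u x, ⟨u x, Algebra.subset_adjoin ⟨x, rfl⟩, rfl⟩, ?_⟩
      change c x * g x a ≠ c x * g x b
      intro h3
      exact hx (mul_left_cancel₀ (hc x).ne' h3))
    intro f
    have h2 : f ∈ S.topologicalClosure := by rw [h1]; trivial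
    exact h2
  exact hdense.mono hS

end WCG

end Pool.Agent.Helper47.SE
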