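import Pool.Agent.Helper47.SE.SE4

set_option autoImplicit false

open Set Topology Filter Cardinal

namespace Pool.Agent.Helper47.SE

section BN

variable {X : Type} [NormedAddCommGroup X] [NormedSpace ℝ X]

/-- the dual ball of a seminorm -/
def BN (N : Seminorm ℝ X) : Set (WeakDual ℝ X) := {f | ∀ x, |f x| ≤ N x}

theorem continuous_eval' (x : X) : Continuous fun f : WeakDual ℝ X => f x :=
  WeakDual.eval_continuous x

theorem isCompact_BN (N : Seminorm ℝ X) {C : ℝ} (hC : ∀ x, N x ≤ C * ‖x‖) : IsCompact (BN N) := by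
  have h1 := WeakDual.isCompact_closedBall (𝕜 := ℝ) (E := X) 0 (max C 0)
  refine h1.of_isClosed_subset ?_ ?_
  · have : BN N = ⋂ x, {f : WeakDual ℝ X | |f x| ≤ N x} := by
      ext f; simp [BN]
    rw [this]
    exact isClosed_iInter fun x => isClosed_le (continuous_eval' x).abs continuous_const
  · intro f hf
    rw [mem_preimage, mem_closedBall_zero_iff]
    apply ContinuousLinearMap.opNorm_le_bound _ (le_max_right _ _)
    intro x
    rw [Real.norm_eq_abs]
    have h2 : |f x| ≤ N x := hf x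
    have h3 : C * ‖x‖ ≤ max C 0 * ‖x‖ := by gcongr; exact le_max_left _ _
    exact (h2.trans (hC x)).trans h3

/-- the dual unit ball -/
abbrev UB (X : Type) [NormedAddCommGroup X] [NormedSpace ℝ X] : Type := ↥(BN (normSeminorm ℝ X))

instance : CompactSpace (UB X) := isCompact_iff_compactSpace.1
  (isCompact_BN (normSeminorm ℝ X) (C := 1) (fun x => by simp))

theorem UB.abs_le (f : UB X) (x : X) : |(f : WeakDual ℝ X) x| ≤ ‖x‖ := by
  have := f.2 x
  simpa using this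

/-- a set with dense span yields a dense set of no larger (infinite) cardinality -/
theorem dense_of_span {S : Set X} (hS : Dense (Submodule.span ℝ S : Set X)) :
    ∃ R : Set X, Dense R ∧ #R ≤ max #S ℵ₀ := by
  let T : List (ℚ × S) → X := fun l => (l.map fun p => (p.1 : ℝ) • (p.2 : X)).sum
  have hadd : ∀ a ∈ range T, ∀ b ∈ range T, a + b ∈ range T := by
    rintro _ ⟨l, rfl⟩ _ ⟨m, rfl⟩
    exact ⟨l ++ m, by simp [T]⟩
  have hsmul : ∀ a ∈ range (fun q : ℚ => (q : ℝ)), ∀ b ∈ range T, a • b ∈ range T := by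
    rintro _ ⟨q, rfl⟩ _ ⟨l, rfl⟩
    refine ⟨l.map fun p => (q * p.1, p.2), ?_⟩
    simp only [T, List.map_map]
    induction l with
    | nil => simp
    | cons p l ih =>
      simp only [List.map_cons, List.sum_cons, smul_add, ih, Function.comp_apply]
      congr 1
      rw [smul_smul]
      push_cast
      rfl
  let V : Submodule ℝ X :=
    { carrier := closure (range T)
      add_mem' := fun {a b} ha hb => map_mem_closure₂ continuous_add ha hb hadd
      zero_mem' := subset_closure ⟨[], by simp [T]⟩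
      smul_mem' := fun c v hv => by
        have hc : c ∈ closure (range fun q : ℚ => (q : ℝ)) := Rat.denseRange_cast c
        exact map_mem_closure₂ continuous_smul hc hv hsmul }
  have hSV : Submodule.span ℝ S ≤ V := by
    rw [Submodule.span_le]
    intro s hs
    refine subset_closure ⟨[(1, ⟨s, hs⟩)], ?_⟩
    simp [T]
  refine ⟨range T, ?_, ?_⟩
  · intro x
    have h1 : x ∈ closure (V : Set X) := closure_mono hSV (hS x)
    have h2 : (V : Set X) = closure (range T) := rfl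
    rw [h2, closure_closure] at h1
    exact h1
  · refine mk_range_le.trans ?_
    refine (mk_list_le_max _).trans ?_
    rw [mk_prod, Cardinal.mkRat, lift_aleph0, lift_id]
    refine max_le (le_max_right _ _) ?_
    calc ℵ₀ * #S ≤ max #S ℵ₀ * max #S ℵ₀ := by
          gcongr
          · exact le_max_right _ _
          · exact le_max_left _ _
      _ = max #S ℵ₀ := mul_eq_self (le_max_right _ _)

/-- outside a non-dense subspace there is a separated unit vector -/
theorem exists_sep {S : Set X} (hS : ¬ Dense (Submodule.span ℝ S : Set X)) :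
    ∃ (x : X) (ψ : UB X), ‖x‖ ≤ 1 ∧ (∀ s ∈ S, (ψ : WeakDual ℝ X) s = 0) ∧
      (ψ : WeakDual ℝ X) x = 1 / 2 := by
  let F : Submodule ℝ X := (Submodule.span ℝ S).topologicalClosure
  have hF : IsClosed (F : Set X) := Submodule.isClosed_topologicalClosure _
  have hne : ∃ x₀, x₀ ∉ F := by
    by_contra hcon
    push Not at hcon
    exact hS fun x => hcon x
  obtain ⟨x₀, hx₀⟩ := hne
  let v : X ⧸ F := Submodule.Quotient.mk x₀
  have hv : 0 < ‖v‖ := by
    rw [norm_pos_iff]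
    intro h0
    exact hx₀ ((Submodule.Quotient.mk_eq_zero F).1 h0)
  obtain ⟨g, hg1, hg2⟩ := exists_dual_vector'' ℝ v
  obtain ⟨x₁, hx₁, hx₁'⟩ := Submodule.Quotient.norm_mk_lt v hv
  let ψ₀ : X →L[ℝ] ℝ := g.comp (F.mkQL)
  have hψ₀ : ∀ x, |ψ₀ x| ≤ ‖x‖ := by
    intro x
    have h1 : ψ₀ x = g (Submodule.Quotient.mk x) := rfl
    rw [h1, ← Real.norm_eq_abs]
    calc ‖g (Submodule.Quotient.mk x)‖ ≤ ‖g‖ * ‖(Submodule.Quotient.mk x : X ⧸ F)‖ := g.le_opNorm _
      _ ≤ 1 * ‖x‖ := by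
          gcongr
          exact Submodule.Quotient.norm_mk_le F x
      _ = ‖x‖ := one_mul _
  refine ⟨(1 / (2 * ‖v‖)) • x₁, ⟨StrongDual.toWeakDual ψ₀, fun x => ?_⟩, ?_, ?_, ?_⟩
  · have := hψ₀ x
    simpa using this
  · rw [norm_smul, Real.norm_eq_abs, abs_of_pos (by positivity), one_div, inv_mul_le_iff₀ (by positivity)]
    linarith
  · intro s hs
    have h1 : (Submodule.Quotient.mk s : X ⧸ F) = 0 :=
      (Submodule.Quotient.mk_eq_zero F).2 (Submodule.le_topologicalClosure _ (Submodule.subset_span hs))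
    change g (Submodule.Quotient.mk s) = 0
    rw [h1, map_zero]
  · change g (Submodule.Quotient.mk ((1 / (2 * ‖v‖)) • x₁)) = 1 / 2
    rw [Submodule.Quotient.mk_smul, map_smul, hx₁, hg2]
    simp only [RCLike.ofReal_real_eq_id, id_eq, smul_eq_mul]
    field_simp

end BN

section Family

variable {X : Type} [NormedAddCommGroup X] [NormedSpace ℝ X]

/-- the value of a ball element -/
abbrev UB.val' (f : UB X) : WeakDual ℝ X := f.1

theorem UB.continuous_apply (x : X) : Continuous fun f : UB X => (f : WeakDual ℝ X) x :=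
  (continuous_eval' x).comp continuous_subtype_val

theorem UB.ext' {f g : UB X} (h : ∀ x, (f : WeakDual ℝ X) x = (g : WeakDual ℝ X) x) : f = g :=
  Subtype.ext (DFunLike.ext _ _ h)

/-- the negative of a ball element -/
noncomputable def UB.neg (f : UB X) : UB X := ⟨-f.1, fun x => by
  have h1 := f.2 x
  have h2 : (-f.1) x = -(f.1 x) := rfl
  rw [h2, abs_neg]
  exact h1⟩

noncomputable def UB.zero : UB X := ⟨0, fun x => by
  have h2 : (0 : WeakDual ℝ X) x = 0 := rfl
  rw [h2, abs_zero]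
  exact apply_nonneg _ x⟩

/-- Long weak* null families from a semi-Eberlein dual ball. -/
theorem exists_family {Γ : Type} {e : UB X → Γ → ℝ} (he : Continuous e)
    (hinj : Function.Injective e) (hD : Dense {s | C0 (e s)}) {μ : Cardinal} (hμ : ℵ₀ < μ)
    (hdens : ∀ s : Set X, Dense s → μ ≤ #s) :
    ∃ (x : μ.ord.ToType → X) (f : μ.ord.ToType → WeakDual ℝ X),
      (∀ i, ‖x i‖ ≤ 1) ∧ (∀ i, 1 / 2 ≤ f i (x i)) ∧ (∀ i y, |f i y| ≤ 2 * ‖y‖) ∧
      (∀ i j, j < i → f i (x j) = 0) ∧ (∀ y, ∀ η : ℝ, 0 < η → {i | η ≤ |f i y|}.Finite) := by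
  classical
  obtain ⟨G, hGc, hG⟩ := exists_G e he hD
  have hsep1 : ∀ a b : UB X, (∀ γ, e a γ = e b γ) → a = b := fun a b hab => hinj (funext hab)
  have hsep2 : ∀ a b : UB X, (∀ x : X, (a : WeakDual ℝ X) x = (b : WeakDual ℝ X) x) → a = b :=
    fun a b hab => UB.ext' hab
  have hec : ∀ γ, Continuous fun b : UB X => e b γ := fun γ => (continuous_apply γ).comp he
  have h1 : ∀ x : X, ∃ F : Set Γ, F.Countable ∧ ∀ a b : UB X, (∀ γ ∈ F, e a γ = e b γ) →
      (a : WeakDual ℝ X) x = (b : WeakDual ℝ X) x := fun x =>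
    countable_det (fun γ b => e b γ) hec hsep1 (fun b : UB X => (b : WeakDual ℝ X) x)
      (UB.continuous_apply x)
  choose Gx hGxc hGx using h1
  have h2 : ∀ γ : Γ, ∃ F : Set X, F.Countable ∧ ∀ a b : UB X,
      (∀ x ∈ F, (a : WeakDual ℝ X) x = (b : WeakDual ℝ X) x) → e a γ = e b γ := fun γ =>
    countable_det (fun (x : X) (b : UB X) => (b : WeakDual ℝ X) x)
      (fun x => UB.continuous_apply x) hsep2 (fun b : UB X => e b γ) (hec γ)
  choose Xg hXgc hXg using h2
  have h3 : ∀ (x : X) (η : ℝ), 0 < η → ∃ F : Finset Γ, ∀ a b : UB X, (∀ γ ∈ F, e a γ = e b γ) →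
      |(a : WeakDual ℝ X) x - (b : WeakDual ℝ X) x| < η := by
    intro x η hη
    obtain ⟨F, ρ, hρ, hF⟩ := finite_det (fun γ (b : UB X) => e b γ) hec hsep1
      (fun b : UB X => (b : WeakDual ℝ X) x) (UB.continuous_apply x) hη
    refine ⟨F, fun a b hab => hF a b fun γ hγ => ?_⟩
    rw [hab γ hγ, sub_self, abs_zero]
    exact hρ
  have hgood : ∀ T : Set Γ, Good e (clG G T) := fun T => good_of_closed e he hG (closed_clG T)
  let SS : Set Γ → Set X := fun A => ⋃ γ ∈ A, Xg γ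
  -- the recursion
  let Astep : (i : μ.ord.ToType) → ((j : μ.ord.ToType) → j < i → X) → Set Γ := fun i r =>
    clG G (⋃ (j : μ.ord.ToType) (hj : j < i), Gx (r j hj))
  let step : (i : μ.ord.ToType) → ((j : μ.ord.ToType) → j < i → X) → X := fun i r =>
    if h : ¬ Dense (Submodule.span ℝ (SS (Astep i r)) : Set X) then (exists_sep h).choose else 0
  have wf : WellFounded ((· < ·) : μ.ord.ToType → μ.ord.ToType → Prop) := wellFounded_lt
  let x : μ.ord.ToType → X := wf.fix step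
  let A : μ.ord.ToType → Set Γ := fun i => clG G (⋃ (j : μ.ord.ToType) (_ : j < i), Gx (x j))
  let A' : μ.ord.ToType → Set Γ := fun i => clG G (⋃ (j : μ.ord.ToType) (_ : j ≤ i), Gx (x j))
  have hx : ∀ i, x i = if h : ¬ Dense (Submodule.span ℝ (SS (A i)) : Set X) then
      (exists_sep h).choose else 0 := fun i => wf.fix_eq step i
  have hAcard : ∀ i, #(A i) < μ := by
    intro i
    refine (mk_clG_le hGc _).trans_lt (max_lt ?_ hμ)
    have h4 : (⋃ (j : μ.ord.ToType) (_ : j < i), Gx (x j)) = ⋃ j : Iio i, Gx (x j) := by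
      ext γ; simp
    rw [h4]
    refine (mk_iUnion_le _).trans_lt ?_
    have h5 : #(Iio i) < μ := mk_Iio_toType_ord_lt i
    have h6 : (⨆ j : Iio i, #(Gx (x j))) ≤ ℵ₀ :=
      ciSup_le' fun j => le_aleph0_iff_set_countable.2 (hGxc _)
    refine (mul_le_mul' le_rfl h6).trans_lt ?_
    exact mul_lt_of_lt hμ.le h5 hμ
  have hScard : ∀ i, #(SS (A i)) < μ := by
    intro i
    have h4 : SS (A i) = ⋃ γ : A i, Xg γ := by
      ext y; simp [SS]
    rw [h4]
    refine (mk_iUnion_le _).trans_lt ?_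
    have h6 : (⨆ γ : A i, #(Xg γ)) ≤ ℵ₀ :=
      ciSup_le' fun j => le_aleph0_iff_set_countable.2 (hXgc _)
    refine (mul_le_mul' le_rfl h6).trans_lt ?_
    exact mul_lt_of_lt hμ.le (hAcard i) hμ
  have hnd : ∀ i, ¬ Dense (Submodule.span ℝ (SS (A i)) : Set X) := by
    intro i hd
    obtain ⟨R, hR1, hR2⟩ := dense_of_span hd
    have h4 := hdens R hR1
    exact absurd (h4.trans hR2) (not_le.2 (max_lt (hScard i) hμ))
  have hxs : ∀ i, ∃ ψ : UB X, ‖x i‖ ≤ 1 ∧ (∀ s ∈ SS (A i), (ψ : WeakDual ℝ X) s = 0) ∧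
      (ψ : WeakDual ℝ X) (x i) = 1 / 2 := by
    intro i
    rw [hx i, dif_pos (hnd i)]
    exact (exists_sep (hnd i)).choose_spec
  choose ψ hx1 hψ0 hψx using hxs
  -- inclusions
  have hAA' : ∀ i, A i ⊆ A' i := fun i => clG_mono (iUnion_mono fun j => by
    intro γ hγ
    obtain ⟨hj, hγ⟩ := mem_iUnion.1 hγ
    exact mem_iUnion.2 ⟨hj.le, hγ⟩)
  have hA'A : ∀ i j, i < j → A' i ⊆ A j := fun i j hij => clG_mono (iUnion_mono fun k => by
    intro γ hγ
    obtain ⟨hj, hγ⟩ := mem_iUnion.1 hγ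
    exact mem_iUnion.2 ⟨hj.trans_lt hij, hγ⟩)
  have hGA' : ∀ i, Gx (x i) ⊆ A' i := fun i γ hγ =>
    subset_clG _ (mem_iUnion.2 ⟨i, mem_iUnion.2 ⟨le_rfl, hγ⟩⟩)
  have hGA : ∀ i j, j < i → Gx (x j) ⊆ A i := fun i j hj γ hγ =>
    subset_clG _ (mem_iUnion.2 ⟨j, mem_iUnion.2 ⟨hj, hγ⟩⟩)
  -- the points
  let θ : μ.ord.ToType → UB X := fun i => ret e (A i) UB.zero
  let φp : μ.ord.ToType → UB X := fun i => ret e (A' i) (ψ i)
  let φm : μ.ord.ToType → UB X := fun i => ret e (A' i) (UB.neg (ψ i))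
  have hθ : ∀ i, e (θ i) = (A i).indicator (e UB.zero) := fun i => ret_spec (hgood _) _
  have hφp : ∀ i, e (φp i) = (A' i).indicator (e (ψ i)) := fun i => ret_spec (hgood _) _
  have hφm : ∀ i, e (φm i) = (A' i).indicator (e (UB.neg (ψ i))) := fun i => ret_spec (hgood _) _
  have hψA : ∀ i, ∀ γ ∈ A i, e (ψ i) γ = e UB.zero γ := by
    intro i γ hγ
    apply hXg γ
    intro s hs
    rw [hψ0 i s (mem_iUnion.2 ⟨γ, mem_iUnion.2 ⟨hγ, hs⟩⟩)]
    rfl
  have hψA' : ∀ i, ∀ γ ∈ A i, e (UB.neg (ψ i)) γ = e UB.zero γ := by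
    intro i γ hγ
    apply hXg γ
    intro s hs
    have h4 : (UB.neg (ψ i) : WeakDual ℝ X) s = -((ψ i : WeakDual ℝ X) s) := rfl
    rw [h4, hψ0 i s (mem_iUnion.2 ⟨γ, mem_iUnion.2 ⟨hγ, hs⟩⟩), neg_zero]
    rfl
  -- coordinates of the three points agree off `A' i \ A i`
  have hcp : ∀ i γ, (γ ∈ A' i → γ ∈ A i) → e (φp i) γ = e (θ i) γ := by
    intro i γ hγ
    rw [hφp, hθ]
    by_cases h4 : γ ∈ A i
    · rw [indicator_of_mem (hAA' i h4), indicator_of_mem h4, hψA i γ h4]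
    · rw [indicator_of_notMem (fun h => h4 (hγ h)), indicator_of_notMem h4]
  have hcm : ∀ i γ, (γ ∈ A' i → γ ∈ A i) → e (φm i) γ = e (θ i) γ := by
    intro i γ hγ
    rw [hφm, hθ]
    by_cases h4 : γ ∈ A i
    · rw [indicator_of_mem (hAA' i h4), indicator_of_mem h4, hψA' i γ h4]
    · rw [indicator_of_notMem (fun h => h4 (hγ h)), indicator_of_notMem h4]
  have hvp : ∀ i, (φp i : WeakDual ℝ X) (x i) = 1 / 2 := by
    intro i
    rw [← hψx i]
    apply hGx (x i)
    intro γ hγ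
    rw [hφp, indicator_of_mem (hGA' i hγ)]
  have hvm : ∀ i, (φm i : WeakDual ℝ X) (x i) = -(1 / 2) := by
    intro i
    rw [← hψx i]
    have h4 : (UB.neg (ψ i) : WeakDual ℝ X) (x i) = -((ψ i : WeakDual ℝ X) (x i)) := rfl
    rw [← h4]
    apply hGx (x i)
    intro γ hγ
    rw [hφm, indicator_of_mem (hGA' i hγ)]
  let f : μ.ord.ToType → WeakDual ℝ X := fun i =>
    if (θ i : WeakDual ℝ X) (x i) ≤ 0 then (φp i : WeakDual ℝ X) - θ i
    else (θ i : WeakDual ℝ X) - φm i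
  have hf1 : ∀ i, (θ i : WeakDual ℝ X) (x i) ≤ 0 → f i = (φp i : WeakDual ℝ X) - θ i :=
    fun i h => if_pos h
  have hf2 : ∀ i, ¬ (θ i : WeakDual ℝ X) (x i) ≤ 0 → f i = (θ i : WeakDual ℝ X) - φm i :=
    fun i h => if_neg h
  have hsub : ∀ (a b : WeakDual ℝ X) (y : X), (a - b) y = a y - b y := fun a b y => rfl
  refine ⟨x, f, hx1, ?_, ?_, ?_, ?_⟩
  · intro i
    by_cases h4 : (θ i : WeakDual ℝ X) (x i) ≤ 0
    · rw [hf1 i h4, hsub, hvp]; linarith
    · rw [hf2 i h4, hsub, hvm]; push Not at h4; linarith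
  · intro i y
    have a1 := (abs_le.1 (UB.abs_le (θ i) y))
    have a2 := (abs_le.1 (UB.abs_le (φp i) y))
    have a3 := (abs_le.1 (UB.abs_le (φm i) y))
    by_cases h4 : (θ i : WeakDual ℝ X) (x i) ≤ 0
    · rw [hf1 i h4, hsub, abs_le]; constructor <;> linarith [a1.1, a1.2, a2.1, a2.2]
    · rw [hf2 i h4, hsub, abs_le]; constructor <;> linarith [a1.1, a1.2, a3.1, a3.2]
  · intro i j hij
    have h5 : (φp i : WeakDual ℝ X) (x j) = (θ i : WeakDual ℝ X) (x j) := by
      apply hGx (x j)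
      intro γ hγ
      exact hcp i γ fun _ => hGA i j hij hγ
    have h6 : (φm i : WeakDual ℝ X) (x j) = (θ i : WeakDual ℝ X) (x j) := by
      apply hGx (x j)
      intro γ hγ
      exact hcm i γ fun _ => hGA i j hij hγ
    by_cases h4 : (θ i : WeakDual ℝ X) (x i) ≤ 0
    · rw [hf1 i h4, hsub, h5, sub_self]
    · rw [hf2 i h4, hsub, h6, sub_self]
  · intro y η hη
    obtain ⟨F, hF⟩ := h3 y η hη
    have h7 : {i | η ≤ |f i y|} ⊆ ⋃ γ ∈ F, {i | γ ∈ A' i \ A i} := by
      intro i hi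
      by_contra hcon
      have h8 : ∀ γ ∈ F, γ ∈ A' i → γ ∈ A i := by
        intro γ hγ hγ'
        by_contra h9
        exact hcon (mem_iUnion₂.2 ⟨γ, hγ, hγ', h9⟩)
      have h9 := hF (φp i) (θ i) fun γ hγ => hcp i γ (h8 γ hγ)
      have h10 := hF (θ i) (φm i) fun γ hγ => (hcm i γ (h8 γ hγ)).symm
      have hi' : η ≤ |f i y| := hi
      by_cases h4 : (θ i : WeakDual ℝ X) (x i) ≤ 0
      · rw [hf1 i h4, hsub] at hi'; linarith
      · rw [hf2 i h4, hsub] at hi'; linarith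
    refine (F.finite_toSet.biUnion fun γ _ => ?_).subset h7
    apply Set.Subsingleton.finite
    intro i hi j hj
    by_contra hne
    rcases lt_or_gt_of_ne hne with h | h
    · exact hj.2 (hA'A i j h hi.1)
    · exact hi.2 (hA'A j i h hj.1)

/-- a colouring separating finitely many predecessors -/
theorem exists_colouring {ι : Type} [LinearOrder ι] [WellFoundedLT ι] (P : ι → ι → Prop)
    (hP : ∀ i, {j | j < i ∧ P i j}.Finite) :
    ∃ c : ι → ℕ, ∀ i j, j < i → P i j → c i ≠ c j := by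
  classical
  have wf : WellFounded ((· < ·) : ι → ι → Prop) := wellFounded_lt
  let step : (i : ι) → ((j : ι) → j < i → ℕ) → ℕ := fun i r =>
    sInf {n | ∀ (j : ι) (hj : j < i), P i j → r j hj ≠ n}
  let c : ι → ℕ := wf.fix step
  have hc : ∀ i, c i = sInf {n | ∀ (j : ι) (_ : j < i), P i j → c j ≠ n} := fun i =>
    wf.fix_eq step i
  refine ⟨c, ?_⟩
  intro i j hj hPij heq
  have hne : {n | ∀ (j : ι) (_ : j < i), P i j → c j ≠ n}.Nonempty := by
    have hfin : (c '' {j | j < i ∧ P i j}).Finite := (hP i).image c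
    obtain ⟨n, hn⟩ := hfin.infinite_compl.nonempty
    refine ⟨n, fun j hj hPj hcj => hn ⟨j, ⟨hj, hPj⟩, hcj⟩⟩
  have h1 := Nat.sInf_mem hne
  rw [← hc i] at h1
  exact h1 j hj hPij heq.symm

theorem exists_free_family {Γ : Type} {e : UB X → Γ → ℝ} (he : Continuous e)
    (hinj : Function.Injective e) (hD : Dense {s | C0 (e s)}) {μ : Cardinal} (hμ2 : 2 ≤ μ)
    (hμω : μ ^ ℵ₀ = μ) (hdens : ∀ s : Set X, Dense s → μ ≤ #s) :
    ∃ (J : Type) (x : J → X) (f : J → WeakDual ℝ X), μ ≤ #J ∧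
      (∀ i, ‖x i‖ ≤ 1) ∧ (∀ i, 1 / 2 ≤ f i (x i)) ∧ (∀ i y, |f i y| ≤ 2 * ‖y‖) ∧
      (∀ i j, i ≠ j → |f i (x j)| < 1 / 8) ∧
      (∀ y, ∀ η : ℝ, 0 < η → {i | η ≤ |f i y|}.Finite) := by
  have hμ : ℵ₀ < μ := by
    rw [← hμω]
    calc ℵ₀ < 2 ^ ℵ₀ := cantor _
      _ ≤ μ ^ ℵ₀ := power_le_power_right hμ2
  obtain ⟨x, f, h1, h2, h3, h4, h5⟩ := exists_family he hinj hD hμ hdens
  obtain ⟨c, hc⟩ := exists_colouring (fun i j => 1 / 8 ≤ |f j (x i)|) (fun i =>
    (h5 (x i) (1 / 8) (by norm_num)).subset fun j hj => hj.2)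
  have hcof : #ℕ < μ.ord.cof := by
    rw [mk_nat, ← hμω]
    exact lt_cof_ord_power le_rfl (lt_of_lt_of_le (by norm_num) hμ2)
  obtain ⟨n, hn⟩ := infinite_pigeonhole_card c μ (by rw [mk_ord_toType]) hμ.le hcof
  refine ⟨c ⁻¹' {n}, fun i => x i, fun i => f i, hn, fun i => h1 i, fun i => h2 i,
    fun i => h3 i, ?_, ?_⟩
  · rintro ⟨i, hi⟩ ⟨j, hj⟩ hij
    have hi' : c i = n := hi
    have hj' : c j = n := hj
    have hne : i ≠ j := fun h => hij (Subtype.ext h)
    change |f i (x j)| < 1 / 8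
    rcases lt_or_gt_of_ne hne with h | h
    · -- i < j
      by_contra hcon
      push Not at hcon
      exact hc j i h hcon (hj'.trans hi'.symm)
    · rw [h4 i j h, abs_zero]; norm_num
  · intro y η hη
    have h6 : (Subtype.val ⁻¹' {i | η ≤ |f i y|} : Set (c ⁻¹' {n})).Finite :=
      (h5 y η hη).preimage Subtype.val_injective.injOn
    exact h6

end Family

end Pool.Agent.Helper47.SE
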