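import Pool.Agent.Helper47.SE.SE6

set_option autoImplicit false

open Set Topology Filter Cardinal

namespace Pool.Agent.Helper47.SE

/-- semi-Eberlein compacta -/
def SemiEberlein (K : Type) [TopologicalSpace K] : Prop :=
  ∃ (Γ : Type) (h : K → Γ → ℝ), IsEmbedding h ∧ (∀ s γ, h s γ ∈ Icc (-1 : ℝ) 1) ∧
    Dense {s | Tendsto (h s) cofinite (𝓝 0)}

theorem SemiEberlein.exists_nonneg {K : Type} [TopologicalSpace K] (hK : SemiEberlein K) :
    ∃ (Γ : Type) (e : K → Γ → ℝ), Continuous e ∧ Function.Injective e ∧ (∀ b γ, 0 ≤ e b γ) ∧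
      Dense {s | C0 (e s)} := by
  obtain ⟨Γ, h, hh, -, hD⟩ := hK
  refine ⟨Γ × Bool, fun b x => if x.2 then max (h b x.1) 0 else max (-h b x.1) 0, ?_, ?_, ?_, ?_⟩
  · apply continuous_pi
    rintro ⟨γ, b⟩
    have hc : Continuous fun k => h k γ := (continuous_apply γ).comp hh.continuous
    cases b
    · simpa using hc.neg.max continuous_const
    · simpa using hc.max continuous_const
  · intro a b hab
    apply hh.injective
    funext γ
    have h1 := congrFun hab (γ, true)
    have h2 := congrFun hab (γ, false)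
    simp only [if_true, Bool.false_eq_true, if_false] at h1 h2
    have key : ∀ t : ℝ, t = max t 0 - max (-t) 0 := by
      intro t
      rcases le_total 0 t with ht | ht
      · rw [max_eq_left ht, max_eq_right (by linarith)]; ring
      · rw [max_eq_right ht, max_eq_left (by linarith)]; ring
    rw [key (h a γ), key (h b γ), h1, h2]
  · rintro b ⟨γ, c⟩
    cases c <;> simp
  · refine hD.mono ?_
    intro s hs
    have hs' : C0 (h s) := hs
    apply C0.of_finite
    intro ε hε
    have hfin := hs'.finite hε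
    refine (hfin.prod (Set.finite_univ (α := Bool))).subset ?_
    rintro ⟨γ, c⟩ hx
    refine ⟨?_, mem_univ _⟩
    have hx' : ε ≤ |(if c then max (h s γ) 0 else max (-h s γ) 0)| := hx
    show ε ≤ |h s γ|
    cases c
    · simp only [Bool.false_eq_true, if_false] at hx'
      refine hx'.trans ?_
      rw [abs_of_nonneg (le_max_right _ _)]
      exact max_le (neg_le_abs _) (abs_nonneg _)
    · simp only [if_true] at hx'
      refine hx'.trans ?_
      rw [abs_of_nonneg (le_max_right _ _)]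
      exact max_le (le_abs_self _) (abs_nonneg _)

section Renorm

variable {X : Type} [NormedAddCommGroup X] [NormedSpace ℝ X]

/-- equivalent norms, as seminorms -/
def EquivNorm (N : Seminorm ℝ X) : Prop :=
  ∃ c C : ℝ, 0 < c ∧ 0 < C ∧ ∀ x : X, c * ‖x‖ ≤ N x ∧ N x ≤ C * ‖x‖

theorem exists_DD (hall : ∀ N : Seminorm ℝ X, EquivNorm N → SemiEberlein (BN N))
    {J : Type} {x : J → X} {f : J → WeakDual ℝ X} (h1 : ∀ i, ‖x i‖ ≤ 1)
    (h2 : ∀ i, 1 / 2 ≤ f i (x i)) (h3 : ∀ i y, |f i y| ≤ 2 * ‖y‖)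
    (h4 : ∀ i j, i ≠ j → |f i (x j)| < 1 / 8)
    (h5 : ∀ y, ∀ η : ℝ, 0 < η → {i | η ≤ |f i y|}.Finite)
    (K₀ : Set (UB X)) (i : K₀ → J) (hi : Function.Injective i) :
    ∃ (Λ : Type) (h : UB X → Λ → ℝ) (p : UB X → ℕ → Λ → ℝ), Continuous h ∧
      Function.Injective h ∧ (∀ b l, 0 ≤ h b l) ∧ DD K₀ h p := by
  classical
  -- the functionals
  let g : K₀ → WeakDual ℝ X := fun k => (1 / 16 : ℝ) • (k : UB X).1 + f (i k)
  have hg : ∀ k y, g k y = 1 / 16 * ((k : UB X).1 y) + f (i k) y := fun k y => rfl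
  have hgb : ∀ k y, |g k y| ≤ 3 * ‖y‖ := by
    intro k y
    have a1 := abs_le.1 (UB.abs_le (k : UB X) y)
    have a2 := abs_le.1 (h3 (i k) y)
    rw [hg, abs_le]
    have := norm_nonneg y
    constructor <;> linarith [a1.1, a1.2, a2.1, a2.2]
  let a : Option K₀ → Seminorm ℝ X := fun o => match o with
    | none => (1 / 16 : NNReal) • normSeminorm ℝ X
    | some k => LinearMap.toSeminorm (g k : X →L[ℝ] ℝ).toLinearMap
  have han : ∀ y, a none y = 1 / 16 * ‖y‖ := by
    intro y
    change ((1 / 16 : NNReal) • normSeminorm ℝ X) y = _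
    rw [smul_apply, coe_normSeminorm, NNReal.smul_def, smul_eq_mul]
    norm_num
  have has : ∀ k y, a (some k) y = |g k y| := fun k y => rfl
  have hab : ∀ o y, a o y ≤ 3 * ‖y‖ := by
    intro o y
    rcases o with - | k
    · rw [han]; have := norm_nonneg y; linarith
    · rw [has]; exact hgb k y
  have hbdd : BddAbove (range a) := by
    refine ⟨(3 : NNReal) • normSeminorm ℝ X, ?_⟩
    rintro _ ⟨o, rfl⟩
    rw [Seminorm.le_def]
    intro y
    rw [smul_apply, coe_normSeminorm, NNReal.smul_def, smul_eq_mul]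
    exact hab o y
  let N : Seminorm ℝ X := ⨆ o, a o
  have hN : ∀ y, N y = ⨆ o, a o y := fun y => Seminorm.iSup_apply hbdd
  have hbdd' : ∀ y, BddAbove (range fun o => a o y) := fun y =>
    ⟨3 * ‖y‖, by rintro _ ⟨o, rfl⟩; exact hab o y⟩
  have hle : ∀ o y, a o y ≤ N y := fun o y => by rw [hN]; exact le_ciSup (hbdd' y) o
  have hNle : ∀ y (r : ℝ), (∀ o, a o y ≤ r) → N y ≤ r := fun y r hr => by
    rw [hN]; exact ciSup_le hr
  have hNeq : EquivNorm N := ⟨1 / 16, 3, by norm_num, by norm_num, fun y =>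
    ⟨by rw [← han]; exact hle none y, hNle y _ fun o => hab o y⟩⟩
  obtain ⟨Λ, e', he', hinj', he0', hD'⟩ := (hall N hNeq).exists_nonneg
  have hcomp : CompactSpace (BN N) := isCompact_iff_compactSpace.1
    (isCompact_BN N (C := 3) fun y => hNle y _ fun o => hab o y)
  -- the scaled copy of the ball
  let sc : UB X → BN N := fun b => ⟨(1 / 16 : ℝ) • b.1, fun y => by
    have hb := UB.abs_le b y
    have : ((1 / 16 : ℝ) • b.1) y = 1 / 16 * (b.1 y) := rfl
    rw [this, abs_mul, abs_of_pos (by norm_num : (0 : ℝ) < 1 / 16)]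
    calc 1 / 16 * |b.1 y| ≤ 1 / 16 * ‖y‖ := by gcongr
      _ = a none y := (han y).symm
      _ ≤ N y := hle none y⟩
  have hsc : ∀ b y, (sc b).1 y = 1 / 16 * (b.1 y) := fun b y => rfl
  have hscc : Continuous sc := by
    have hv : Continuous fun b : UB X => (b : WeakDual ℝ X) := continuous_subtype_val
    exact Continuous.subtype_mk (hv.const_smul (1 / 16 : ℝ)) _
  have hsci : Function.Injective sc := by
    intro b c hbc
    apply UB.ext'
    intro y
    have h6 : (sc b).1 y = (sc c).1 y := by rw [hbc]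
    rw [hsc, hsc] at h6
    linarith
  have hgN : ∀ k : K₀, g k ∈ BN N := fun k y => hle (some k) y
  -- the slices
  have hslice : ∀ (k : K₀) (φ : BN N) (η : ℝ), 0 ≤ η → g k (x (i k)) - η ≤ φ.1 (x (i k)) →
      ∀ y, |φ.1 y - g k y| ≤ 32 * η * ‖y‖ := by
    intro k φ η hη hφ y
    -- small perturbations are normed by `g k`
    have hsmall : ∀ z : X, ‖z‖ ≤ 1 / 32 → φ.1 z - g k z ≤ η := by
      intro z hz
      have hNz : N (x (i k) + z) ≤ g k (x (i k) + z) := by
        have b1 : 11 / 32 ≤ g k (x (i k) + z) := by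
          have c1 : g k (x (i k) + z) = g k (x (i k)) + g k z := map_add (g k) _ _
          have c2 : 7 / 16 ≤ g k (x (i k)) := by
            rw [hg]
            have := abs_le.1 (UB.abs_le (k : UB X) (x (i k)))
            have := h1 (i k)
            have := h2 (i k)
            linarith [this]
          have c3 := (abs_le.1 (hgb k z)).1
          rw [c1]; linarith
        apply hNle
        intro o
        rcases o with - | k'
        · rw [han]
          have : ‖x (i k) + z‖ ≤ 1 + 1 / 32 := (norm_add_le _ _).trans (add_le_add (h1 _) hz)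
          linarith
        · rw [has]
          by_cases hk : k' = k
          · rw [hk, abs_of_nonneg (by linarith)]
          · have c1 : g k' (x (i k) + z) = g k' (x (i k)) + g k' z := map_add (g k') _ _
            have c2 : |g k' (x (i k))| ≤ 3 / 16 := by
              rw [hg]
              have d1 := abs_le.1 (UB.abs_le (k' : UB X) (x (i k)))
              have d2 := abs_lt.1 (h4 (i k') (i k) (fun h => hk (hi h)))
              have d3 := h1 (i k)
              rw [abs_le]
              constructor <;> linarith [d1.1, d1.2, d2.1, d2.2]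
            have c3 := hgb k' z
            rw [c1]
            refine (abs_add_le _ _).trans ?_
            linarith
      have hφz : φ.1 (x (i k) + z) ≤ N (x (i k) + z) := (le_abs_self _).trans (φ.2 _)
      have c1 : g k (x (i k) + z) = g k (x (i k)) + g k z := map_add (g k) _ _
      have c2 : φ.1 (x (i k) + z) = φ.1 (x (i k)) + φ.1 z := map_add φ.1 _ _
      linarith
    have habs : ∀ z : X, ‖z‖ ≤ 1 / 32 → |φ.1 z - g k z| ≤ η := by
      intro z hz
      rw [abs_le]
      have b1 := hsmall z hz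
      have b2 := hsmall (-z) (by rwa [norm_neg])
      have c1 : φ.1 (-z) = -(φ.1 z) := map_neg φ.1 z
      have c2 : g k (-z) = -(g k z) := map_neg (g k) z
      rw [c1, c2] at b2
      constructor <;> linarith
    by_cases hy : y = 0
    · subst hy
      have c1 : φ.1 (0 : X) = 0 := map_zero φ.1
      have c2 : g k (0 : X) = 0 := map_zero (g k)
      rw [c1, c2]; simp
    · have hy' : 0 < ‖y‖ := norm_pos_iff.2 hy
      have b1 := habs ((1 / (32 * ‖y‖)) • y) (by
        rw [norm_smul, Real.norm_eq_abs, abs_of_pos (by positivity)]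
        apply le_of_eq
        field_simp)
      have c1 : φ.1 ((1 / (32 * ‖y‖)) • y) = (1 / (32 * ‖y‖)) * φ.1 y := map_smul φ.1 _ _
      have c2 : g k ((1 / (32 * ‖y‖)) • y) = (1 / (32 * ‖y‖)) * g k y := map_smul (g k) _ _
      rw [c1, c2, ← mul_sub, abs_mul, abs_of_pos (by positivity : (0:ℝ) < 1 / (32 * ‖y‖)),
        one_div, inv_mul_le_iff₀ (by positivity)] at b1
      linarith
  -- the approximating points
  have hd : ∀ (k : K₀) (n : ℕ), ∃ d : BN N, C0 (e' d) ∧
      ∀ y, |d.1 y - g k y| ≤ 32 * (1 / ((n : ℝ) + 1)) * ‖y‖ := by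
    intro k n
    have hpos : (0 : ℝ) < 1 / ((n : ℝ) + 1) := by positivity
    have hopen : IsOpen {φ : BN N | g k (x (i k)) - 1 / ((n : ℝ) + 1) < φ.1 (x (i k))} :=
      isOpen_lt continuous_const ((continuous_eval' _).comp continuous_subtype_val)
    obtain ⟨d, hd1, hd2⟩ := hD'.exists_mem_open hopen ⟨⟨g k, hgN k⟩, by
      show g k (x (i k)) - 1 / ((n : ℝ) + 1) < g k (x (i k))
      linarith⟩
    exact ⟨d, hd1, hslice k d _ hpos.le (le_of_lt hd2)⟩
  choose d hd1 hd2 using hd
  refine ⟨Λ, fun b => e' (sc b), fun b n => if hb : b ∈ K₀ then e' (d ⟨b, hb⟩ n) else 0,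
    he'.comp hscc, hinj'.comp hsci, fun b l => he0' _ _, ?_, ?_⟩
  · intro k hk n
    simp only [dif_pos hk]
    exact hd1 _ _
  · intro l q hq
    obtain ⟨F, ρ, hρ, hF⟩ := finite_det (fun (y : X) (φ : BN N) => φ.1 y)
      (fun y => (continuous_eval' y).comp continuous_subtype_val)
      (fun φ ψ hφψ => Subtype.ext (DFunLike.ext _ _ hφψ)) (fun φ => e' φ l)
      ((continuous_apply l).comp he') hq
    -- bound for the norms
    obtain ⟨M, hM⟩ : ∃ M : ℝ, ∀ y ∈ F, ‖y‖ ≤ M := by
      obtain ⟨M, hM⟩ := (F.finite_toSet.image (fun y => ‖y‖)).bddAbove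
      exact ⟨M, fun y hy => hM ⟨y, hy, rfl⟩⟩
    have hMp : 0 < 32 * (|M| + 1) := by positivity
    obtain ⟨n₀, hn₀⟩ := exists_nat_one_div_lt (show 0 < ρ / 2 / (32 * (|M| + 1)) by positivity)
    refine ⟨n₀, ?_⟩
    have hsub : {k ∈ K₀ | ∃ n ≥ n₀, q ≤ |(if hb : k ∈ K₀ then e' (d ⟨k, hb⟩ n) else 0) l -
        e' (sc k) l|} ⊆ Subtype.val '' (⋃ y ∈ F, {k : K₀ | ρ / 2 ≤ |f (i k) y|}) := by
      rintro k ⟨hk, n, hn, hq'⟩
      refine ⟨⟨k, hk⟩, ?_, rfl⟩
      by_contra hcon
      rw [dif_pos hk] at hq'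
      have h6 : ∀ y ∈ F, |f (i ⟨k, hk⟩) y| < ρ / 2 := by
        intro y hy
        by_contra h7
        push Not at h7
        exact hcon (mem_iUnion₂.2 ⟨y, hy, h7⟩)
      have h7 := hF (d ⟨k, hk⟩ n) (sc k) (fun y hy => by
        have b1 := hd2 ⟨k, hk⟩ n y
        have b2 := h6 y hy
        have b3 : (sc k).1 y = g ⟨k, hk⟩ y - f (i ⟨k, hk⟩) y := by
          rw [hsc, hg]; ring
        have b4 : ‖y‖ ≤ |M| + 1 := by linarith [hM y hy, le_abs_self M]
        have b5 : 1 / ((n : ℝ) + 1) ≤ 1 / ((n₀ : ℝ) + 1) := by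
          apply one_div_le_one_div_of_le (by positivity)
          have : (n₀ : ℝ) ≤ n := by exact_mod_cast hn
          linarith
        have b6 : 32 * (1 / ((n : ℝ) + 1)) * ‖y‖ < ρ / 2 := by
          calc 32 * (1 / ((n : ℝ) + 1)) * ‖y‖ ≤ 32 * (1 / ((n₀ : ℝ) + 1)) * (|M| + 1) := by
                gcongr
            _ = (1 / ((n₀ : ℝ) + 1)) * (32 * (|M| + 1)) := by ring
            _ < ρ / 2 := by rwa [lt_div_iff₀ hMp] at hn₀
        have b7 : (d ⟨k, hk⟩ n).1 y - (sc k).1 y =
            ((d ⟨k, hk⟩ n).1 y - g ⟨k, hk⟩ y) + f (i ⟨k, hk⟩) y := by rw [b3]; ring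
        rw [b7]
        refine (abs_add_le _ _).trans_lt ?_
        linarith)
      linarith
    refine Set.Finite.subset (Set.Finite.image _ ?_) hsub
    refine F.finite_toSet.biUnion fun y _ => ?_
    have h8 : (i ⁻¹' {j | ρ / 2 ≤ |f j y|}).Finite := (h5 y (ρ / 2) (by positivity)).preimage hi.injOn
    exact h8

end Renorm

end Pool.Agent.Helper47.SE
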