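import Pool.Agent.Helper47.SE.SE5
import Pool.Agent.Helper47.SE.SE7

set_option autoImplicit false

open Set Topology Filter Cardinal

namespace Pool.Agent.Helper47.SE

section Card

variable {B Γ : Type}

theorem mk_K0_le {e : B → Γ → ℝ} (hinj : Function.Injective e) {A : Set Γ} {μ : Cardinal}
    (hA : #A ≤ μ) (hμ2 : 2 ≤ μ) (hμω : μ ^ ℵ₀ = μ) : #(K0 e A) ≤ μ := by
  have hμc : 2 ^ ℵ₀ ≤ μ := by
    rw [← hμω]; exact power_le_power_right hμ2
  have hμ : ℵ₀ ≤ μ := (cantor _).le.trans hμc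
  let F : K0 e A → {t : Set (A × ℝ) // #t ≤ ℵ₀} := fun φ =>
    ⟨{p | e φ p.1 = p.2 ∧ p.2 ≠ 0}, by
      have hinj' : Function.Injective (fun p : {p : A × ℝ | e φ p.1 = p.2 ∧ p.2 ≠ 0} =>
          (⟨(p.1.1 : Γ), by
            rw [Function.mem_support, p.2.1]; exact p.2.2⟩ : Function.support (e (φ : B)))) := by
        rintro ⟨⟨a, r⟩, h1, h2⟩ ⟨⟨b, t⟩, h3, h4⟩ hab
        have hab' : (a : Γ) = b :=
          congrArg (Subtype.val (p := fun γ => γ ∈ Function.support (e (φ : B)))) hab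
        have hab'' : a = b := Subtype.ext hab'
        subst hab''
        have : r = t := h1.symm.trans h3
        subst this
        rfl
      refine (mk_le_of_injective hinj').trans ?_
      exact le_aleph0_iff_set_countable.2 φ.2.2⟩
  have hF : Function.Injective F := by
    intro φ ψ h
    have h' : {p : A × ℝ | e φ p.1 = p.2 ∧ p.2 ≠ 0} = {p : A × ℝ | e ψ p.1 = p.2 ∧ p.2 ≠ 0} :=
      congrArg Subtype.val h
    apply Subtype.ext
    apply hinj
    funext γ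
    by_cases h1 : e φ γ = 0
    · by_cases h2 : e ψ γ = 0
      · rw [h1, h2]
      · have hγ : γ ∈ A := ψ.2.1 h2
        have h3 : ((⟨γ, hγ⟩, e ψ γ) : A × ℝ) ∈ {p : A × ℝ | e ψ p.1 = p.2 ∧ p.2 ≠ 0} := ⟨rfl, h2⟩
        rw [← h'] at h3
        exact h3.1
    · have hγ : γ ∈ A := φ.2.1 h1
      have h3 : ((⟨γ, hγ⟩, e φ γ) : A × ℝ) ∈ {p : A × ℝ | e φ p.1 = p.2 ∧ p.2 ≠ 0} := ⟨rfl, h1⟩
      rw [h'] at h3
      exact h3.1.symm
  refine (mk_le_of_injective hF).trans ?_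
  refine (mk_bounded_set_le _ _).trans ?_
  have h1 : #(A × ℝ) ≤ μ := by
    rw [mk_prod, lift_id, lift_id, mk_real]
    calc #A * 𝔠 ≤ μ * μ := mul_le_mul' hA (by rw [← two_power_aleph0]; exact hμc)
      _ = μ := mul_eq_self hμ
  calc max #(A × ℝ) ℵ₀ ^ ℵ₀ ≤ μ ^ ℵ₀ := power_le_power_right (max_le h1 hμ)
    _ = μ := hμω

end Card

section Core

variable {X : Type} [NormedAddCommGroup X] [NormedSpace ℝ X]

/-- convex combinations in the ball -/
noncomputable def comb (t : ℝ) (ht0 : 0 ≤ t) (ht1 : t ≤ 1) (k ψ : UB X) : UB X :=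
  ⟨(1 - t) • k.1 + t • ψ.1, fun x => by
    have h1 := k.2 x
    have h2 := ψ.2 x
    have h3 : ((1 - t) • k.1 + t • ψ.1) x = (1 - t) * k.1 x + t * ψ.1 x := rfl
    rw [h3]
    calc |(1 - t) * k.1 x + t * ψ.1 x| ≤ |(1 - t) * k.1 x| + |t * ψ.1 x| := abs_add_le _ _
      _ = (1 - t) * |k.1 x| + t * |ψ.1 x| := by
          rw [abs_mul, abs_mul, abs_of_nonneg ht0, abs_of_nonneg (by linarith : 0 ≤ 1 - t)]
      _ ≤ (1 - t) * normSeminorm ℝ X x + t * normSeminorm ℝ X x := by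
          have : 0 ≤ 1 - t := by linarith
          gcongr
      _ = normSeminorm ℝ X x := by ring⟩

theorem core (hall : ∀ N : Seminorm ℝ X, EquivNorm N → SemiEberlein (BN N)) {μ : Cardinal}
    (hμ2 : 2 ≤ μ) (hμω : μ ^ ℵ₀ = μ) (hdens : ∀ s : Set X, Dense s → μ ≤ #s) {x₀ : X}
    (hx₀ : x₀ ≠ 0) (Q : Set X) (hQ : #Q ≤ μ) :
    ∃ (J : Type) (lev : J → ℕ) (g : J → UB X → ℝ), (∀ x, Continuous (g x)) ∧
      (∀ x b, 0 ≤ g x b) ∧ (∀ b j, {x | lev x = j ∧ g x b ≠ 0}.Finite) ∧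
      ∀ a b : UB X, (∀ x, g x a = g x b) → ∀ y ∈ Q, a.1 y = b.1 y := by
  have hμ : ℵ₀ ≤ μ := by
    rw [← hμω]
    exact (cantor _).le.trans (power_le_power_right hμ2)
  have hn : EquivNorm (normSeminorm ℝ X) := ⟨1, 1, one_pos, one_pos, fun x => by simp⟩
  obtain ⟨Γ, e, he, hinj, he0, hD⟩ := (hall _ hn).exists_nonneg
  obtain ⟨G, hGc, hG⟩ := exists_G e he hD
  have hsep1 : ∀ a b : UB X, (∀ γ, e a γ = e b γ) → a = b := fun a b hab => hinj (funext hab)
  have hec : ∀ γ, Continuous fun b : UB X => e b γ := fun γ => (continuous_apply γ).comp he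
  have h1 : ∀ x : X, ∃ F : Set Γ, F.Countable ∧ ∀ a b : UB X, (∀ γ ∈ F, e a γ = e b γ) →
      (a : WeakDual ℝ X) x = (b : WeakDual ℝ X) x := fun x =>
    countable_det (fun γ b => e b γ) hec hsep1 (fun b : UB X => (b : WeakDual ℝ X) x)
      (UB.continuous_apply x)
  choose Gx hGxc hGx using h1
  set A : Set Γ := clG G (⋃ y ∈ insert x₀ Q, Gx y) with hAdef
  have hgoodA : Good e A := good_of_closed e he hG (closed_clG _)
  have hGxA : ∀ y ∈ insert x₀ Q, Gx y ⊆ A := fun y hy γ hγ =>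
    subset_clG _ (mem_iUnion.2 ⟨y, mem_iUnion.2 ⟨hy, hγ⟩⟩)
  have hAcard : #A ≤ μ := by
    refine (mk_clG_le hGc _).trans (max_le ?_ hμ)
    have h4 : (⋃ y ∈ insert x₀ Q, Gx y) = ⋃ y : (insert x₀ Q : Set X), Gx y := by
      ext γ; simp
    rw [h4]
    refine (mk_iUnion_le _).trans ?_
    have h5 : #(insert x₀ Q : Set X) ≤ μ := by
      refine (mk_insert_le).trans ?_
      calc #Q + 1 ≤ μ + μ := add_le_add hQ (one_le_aleph0.trans hμ)
        _ = μ := add_eq_self hμ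
    calc #(insert x₀ Q : Set X) * ⨆ y : (insert x₀ Q : Set X), #(Gx y) ≤ μ * μ := by
          apply mul_le_mul' h5
          exact (ciSup_le' fun j => le_aleph0_iff_set_countable.2 (hGxc _)).trans hμ
      _ = μ := mul_eq_self hμ
  have hK0card : #(K0 e A) ≤ μ := mk_K0_le hinj hAcard hμ2 hμω
  obtain ⟨J, x, f, hJ, f1, f2, f3, f4, f5⟩ := exists_free_family he hinj hD hμ2 hμω hdens
  obtain ⟨i⟩ : Nonempty (K0 e A ↪ J) := Cardinal.le_def _ _ |>.1 (hK0card.trans hJ)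
  obtain ⟨Λ, h, p, hhc, hhinj, hh0, dd⟩ := exists_DD hall f1 f2 f3 f4 f5 (K0 e A) i i.injective
  -- step 1
  have hcount : ∀ φ : UB X, Function.support (e φ) ⊆ A → φ ∈ K0 e A := fun φ hφ =>
    ⟨hφ, all_countable he hinj hGc hG hhc hhinj hh0 dd hφ⟩
  have hret : ∀ φ : UB X, ret e A φ ∈ K0 e A := by
    intro φ
    apply hcount
    intro γ hγ
    rw [Function.mem_support, ret_spec hgoodA] at hγ
    by_contra hcon
    exact hγ (indicator_of_notMem hcon _)
  have hretx : ∀ φ : UB X, ∀ y ∈ insert x₀ Q, (ret e A φ).1 y = φ.1 y := by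
    intro φ y hy
    apply hGx y
    intro γ hγ
    rw [ret_spec hgoodA, indicator_of_mem (hGxA y hy hγ)]
  have hretid : ∀ k ∈ K0 e A, ret e A k = k := by
    intro k hk
    apply hinj
    rw [ret_spec hgoodA]
    funext γ
    by_cases hγ : γ ∈ A
    · rw [indicator_of_mem hγ]
    · rw [indicator_of_notMem hγ]
      by_contra hne
      exact hγ (hk.1 (Ne.symm hne))
  -- step 2
  have hs : ∀ k ∈ K0 e A, (Function.support (h k)).Countable := by
    intro k hk
    obtain ⟨ψ, hψ⟩ : ∃ ψ : UB X, ψ.1 x₀ ≠ k.1 x₀ := by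
      by_cases h0 : k.1 x₀ = 0
      · obtain ⟨g, hg1, hg2⟩ := exists_dual_vector'' ℝ x₀
        refine ⟨⟨StrongDual.toWeakDual g, fun y => ?_⟩, ?_⟩
        · have h6 : ‖g y‖ ≤ ‖g‖ * ‖y‖ := g.le_opNorm y
          have h7 : ‖g‖ * ‖y‖ ≤ 1 * ‖y‖ := by gcongr
          rw [one_mul] at h7
          have h8 := h6.trans h7
          rw [Real.norm_eq_abs] at h8
          simpa using h8
        · rw [h0]
          have h6 : (StrongDual.toWeakDual g) x₀ = g x₀ := rfl
          show (StrongDual.toWeakDual g) x₀ ≠ 0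
          rw [h6, hg2]
          simpa using hx₀
      · exact ⟨UB.zero, fun h1 => h0 h1.symm⟩
    have ht : ∀ j : ℕ, (0 : ℝ) ≤ 1 / ((j : ℝ) + 1) ∧ 1 / ((j : ℝ) + 1) ≤ 1 := by
      intro j
      refine ⟨by positivity, ?_⟩
      rw [div_le_one (by positivity)]
      have : (0 : ℝ) ≤ j := Nat.cast_nonneg j
      linarith
    let c : ℕ → UB X := fun j => comb (1 / ((j : ℝ) + 1)) (ht j).1 (ht j).2 k ψ
    have hc : ∀ j, (c j).1 = (1 - 1 / ((j : ℝ) + 1)) • k.1 + (1 / ((j : ℝ) + 1)) • ψ.1 :=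
      fun j => rfl
    have hcx : ∀ j, (c j).1 x₀ = k.1 x₀ + (1 / ((j : ℝ) + 1)) * (ψ.1 x₀ - k.1 x₀) := by
      intro j
      have h6 : (c j).1 x₀ = (1 - 1 / ((j : ℝ) + 1)) * k.1 x₀ + (1 / ((j : ℝ) + 1)) * ψ.1 x₀ := rfl
      rw [h6]; ring
    have hclim : Tendsto c atTop (𝓝 k) := by
      rw [tendsto_subtype_rng]
      simp only [hc]
      have h6 : Tendsto (fun j : ℕ => 1 / ((j : ℝ) + 1)) atTop (𝓝 0) :=
        tendsto_one_div_add_atTop_nhds_zero_nat
      have h7 : Tendsto (fun j : ℕ => (1 - 1 / ((j : ℝ) + 1)) • k.1 + (1 / ((j : ℝ) + 1)) • ψ.1)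
          atTop (𝓝 ((1 - 0 : ℝ) • k.1 + (0 : ℝ) • ψ.1)) :=
        ((tendsto_const_nhds.sub h6).smul_const _).add (h6.smul_const _)
      simpa using h7
    apply dd.support_countable hhc (s := fun j => ret e A (c j)) (fun j => hret _)
    · intro j l hjl
      have hjl' : ret e A (c j) = ret e A (c l) := hjl
      have h6 : (ret e A (c j)).1 x₀ = (ret e A (c l)).1 x₀ := by rw [hjl']
      rw [hretx _ _ (mem_insert _ _), hretx _ _ (mem_insert _ _), hcx, hcx] at h6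
      have h7 : (1 / ((j : ℝ) + 1)) = 1 / ((l : ℝ) + 1) := by
        have h8 := add_left_cancel h6
        exact mul_right_cancel₀ (sub_ne_zero.2 hψ) h8
      have h8 : ((j : ℝ) + 1) = (l : ℝ) + 1 := by
        have := congrArg (fun t : ℝ => 1 / t) h7
        simpa using this
      exact_mod_cast add_right_cancel h8
    · have h6 := ((continuous_ret he hinj hgoodA).tendsto k).comp hclim
      rw [hretid k hk] at h6
      exact h6
  obtain ⟨lev, hlev⟩ := dd.families hs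
  refine ⟨Λ × ℕ, lev, fun y b => gf h y (ret e A b), ?_, ?_, ?_, ?_⟩
  · intro y
    exact (continuous_gf hhc y).comp (continuous_ret he hinj hgoodA)
  · intro y b
    exact le_max_right _ _
  · intro b j
    exact hlev _ (hret b) j
  · intro a b hab y hy
    have h6 : ret e A a = ret e A b := gf_sep hhinj hh0 hab
    rw [← hretx a y (mem_insert_of_mem _ hy), ← hretx b y (mem_insert_of_mem _ hy), h6]

end Core

end Pool.Agent.Helper47.SE
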