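import Pool.Agent.Helper47.SE.SE8

set_option autoImplicit false

open Set Topology Filter Cardinal

namespace Pool.Agent.Helper47.SE

section Q

theorem exists_Q {S : Type} (hS : ℵ₀ < #S) (hC : ∀ κ < #S, κ ^ ℵ₀ ≤ #S) :
    ∃ Q : ℕ → Set S, (⋃ n, Q n) = Set.univ ∧ ∀ n, #(Q n) ^ ℵ₀ ≤ #S := by
  obtain ⟨E⟩ : Nonempty (S ≃ (#S).ord.ToType) := Cardinal.eq.1 (mk_ord_toType _).symm
  have hIio : ∀ b : (#S).ord.ToType, #(Iio b) < #S := fun b => mk_Iio_toType_ord_lt b
  by_cases hcof : ∃ f : ℕ → (#S).ord.ToType, ∀ b, ∃ n, b ≤ f n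
  · obtain ⟨f, hf⟩ := hcof
    refine ⟨fun n => {s | E s ≤ f n}, ?_, ?_⟩
    · rw [eq_univ_iff_forall]
      intro s
      obtain ⟨n, hn⟩ := hf (E s)
      exact mem_iUnion.2 ⟨n, hn⟩
    · intro n
      apply hC
      have h1 : #{s | E s ≤ f n} ≤ #(Iic (f n)) :=
        mk_le_of_injective (f := fun s : {s | E s ≤ f n} => (⟨E s, s.2⟩ : Iic (f n))) (by
          intro s t hst
          exact Subtype.ext (E.injective (congrArg Subtype.val hst)))
      refine h1.trans_lt ?_
      have h2 : Iic (f n) ⊆ insert (f n) (Iio (f n)) := by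
        intro b hb
        rcases eq_or_lt_of_le (show b ≤ f n from hb) with h | h
        · exact Or.inl h
        · exact Or.inr h
      refine (mk_le_mk_of_subset h2).trans_lt ?_
      refine mk_insert_le.trans_lt ?_
      exact add_lt_of_lt hS.le (hIio _) (one_lt_aleph0.trans hS)
  · push Not at hcof
    have hpow : #S ^ ℵ₀ ≤ #S := by
      have h1 : #S ^ ℵ₀ = #(ℕ → (#S).ord.ToType) := by
        rw [mk_arrow]
        simp
      rw [h1]
      have h2 : (Set.univ : Set (ℕ → (#S).ord.ToType)) ⊆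
          ⋃ b : (#S).ord.ToType, {f | ∀ n, f n < b} := by
        intro f _
        obtain ⟨b, hb⟩ := hcof f
        exact mem_iUnion.2 ⟨b, hb⟩
      rw [← mk_univ]
      refine (mk_le_mk_of_subset h2).trans ?_
      refine (mk_iUnion_le _).trans ?_
      have h3 : ∀ b : (#S).ord.ToType, #{f : ℕ → (#S).ord.ToType | ∀ n, f n < b} ≤ #S := by
        intro b
        have h4 : #{f : ℕ → (#S).ord.ToType | ∀ n, f n < b} ≤ #(ℕ → Iio b) :=
          mk_le_of_injective (f := fun f : {f : ℕ → (#S).ord.ToType | ∀ n, f n < b} =>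
            fun n => (⟨f.1 n, f.2 n⟩ : Iio b)) (by
            intro f g hfg
            apply Subtype.ext
            funext n
            exact congrArg Subtype.val (congrFun hfg n))
        refine h4.trans ?_
        rw [mk_arrow]
        simp only [mk_nat, lift_id]
        exact hC _ (hIio b)
      calc #(#S).ord.ToType * ⨆ b : (#S).ord.ToType, #{f : ℕ → (#S).ord.ToType | ∀ n, f n < b}
          ≤ #S * #S := mul_le_mul' (mk_ord_toType _).le (ciSup_le' h3)
        _ = #S := mul_eq_self hS.le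
    refine ⟨fun _ => Set.univ, iUnion_const _, fun n => ?_⟩
    rw [mk_univ]
    exact hpow

end Q

section Final

variable {X : Type} [NormedAddCommGroup X] [NormedSpace ℝ X]

/-- evaluation into `C(UB X)` -/
noncomputable def evalC (X : Type) [NormedAddCommGroup X] [NormedSpace ℝ X] :
    X →L[ℝ] C(UB X, ℝ) :=
  LinearMap.mkContinuous
    { toFun := fun x => ⟨fun φ => φ.1 x, UB.continuous_apply x⟩
      map_add' := fun x y => by ext φ; exact map_add φ.1 x y
      map_smul' := fun c x => by ext φ; exact map_smul φ.1 c x } 1 (fun x => by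
      rw [one_mul]
      apply (ContinuousMap.norm_le _ (norm_nonneg _)).2
      intro φ
      exact UB.abs_le φ x)

theorem evalC_apply (x : X) (φ : UB X) : evalC X x φ = φ.1 x := rfl

theorem le_norm_evalC (x : X) : ‖x‖ ≤ ‖evalC X x‖ := by
  obtain ⟨g, hg1, hg2⟩ := exists_dual_vector'' ℝ x
  let φ : UB X := ⟨StrongDual.toWeakDual g, fun y => by
    have h6 : ‖g y‖ ≤ ‖g‖ * ‖y‖ := g.le_opNorm y
    have h7 : ‖g‖ * ‖y‖ ≤ 1 * ‖y‖ := by gcongr
    rw [one_mul] at h7
    have h8 := h6.trans h7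
    rw [Real.norm_eq_abs] at h8
    simpa using h8⟩
  have h1 : evalC X x φ = ‖x‖ := by
    have : evalC X x φ = g x := rfl
    rw [this, hg2]
    rfl
  calc ‖x‖ = ‖evalC X x φ‖ := by rw [h1, norm_norm]
    _ ≤ ‖evalC X x‖ := (evalC X x).norm_coe_le_norm φ

theorem final (hall : ∀ N : Seminorm ℝ X, EquivNorm N → SemiEberlein (BN N)) {S : Set X}
    (hS : Dense S) (hmin : ∀ s : Set X, Dense s → #S ≤ #s) (hω : ℵ₀ < #S)
    (hC : ∀ κ < #S, κ ^ ℵ₀ ≤ #S) :
    ∃ W : Set C(UB X, ℝ), IsCompact (toWeakSpace ℝ C(UB X, ℝ) '' W) ∧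
      Dense (Submodule.span ℝ W : Set C(UB X, ℝ)) := by
  -- `X` is not trivial
  obtain ⟨x₀, hx₀⟩ : ∃ x₀ : X, x₀ ≠ 0 := by
    by_contra hcon
    push Not at hcon
    have : Subsingleton X := ⟨fun a b => by rw [hcon a, hcon b]⟩
    have h1 : #S ≤ 1 := Cardinal.le_one_iff_subsingleton.2 inferInstance
    exact absurd (h1.trans one_le_aleph0) (not_le.2 hω)
  obtain ⟨Q, hQ1, hQ2⟩ := exists_Q hω hC
  have h2c : (2 : Cardinal) ^ ℵ₀ ≤ #S := hC 2 ((natCast_lt_aleph0).trans hω)
  let μ : ℕ → Cardinal := fun n => (max #(Q n) 2) ^ ℵ₀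
  have hμle : ∀ n, μ n ≤ #S := by
    intro n
    rcases le_total #(Q n) 2 with h | h
    · simp only [μ, max_eq_right h]; exact h2c
    · simp only [μ, max_eq_left h]; exact hQ2 n
  have hcore : ∀ n, ∃ (J : Type) (lev : J → ℕ) (g : J → UB X → ℝ), (∀ x, Continuous (g x)) ∧
      (∀ x b, 0 ≤ g x b) ∧ (∀ b j, {x | lev x = j ∧ g x b ≠ 0}.Finite) ∧
      ∀ a b : UB X, (∀ x, g x a = g x b) → ∀ y ∈ (Subtype.val '' (Q n) : Set X), a.1 y = b.1 y := by
    intro n
    refine core hall (μ := μ n) ?_ ?_ (fun s hs => (hμle n).trans (hmin s hs)) hx₀ _ ?_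
    · exact (le_max_right _ _).trans (self_le_power _ (one_le_aleph0))
    · simp only [μ]
      rw [← power_mul, aleph0_mul_aleph0]
    · rw [mk_image_eq Subtype.val_injective]
      exact (le_max_left _ _).trans (self_le_power _ (one_le_aleph0))
  choose J lev g hg1 hg2 hg3 hg4 using hcore
  have : T2Space (UB X) := inferInstance
  refine wcg_of_families (J := Σ n, J n) (fun x => Nat.pair x.1 (lev x.1 x.2))
    (fun x => g x.1 x.2) (fun x => hg1 _ _) (fun x b => hg2 _ _ _) ?_ ?_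
  · intro b j
    have h1 : {x : Σ n, J n | Nat.pair x.1 (lev x.1 x.2) = j ∧ g x.1 x.2 b ≠ 0} ⊆
        (fun y : J (Nat.unpair j).1 => (⟨(Nat.unpair j).1, y⟩ : Σ n, J n)) ''
          {y | lev _ y = (Nat.unpair j).2 ∧ g _ y b ≠ 0} := by
      rintro ⟨n, y⟩ ⟨h1, h2⟩
      simp only at h1 h2
      subst h1
      have e1 : (Nat.unpair (Nat.pair n (lev n y))).1 = n := by rw [Nat.unpair_pair]
      have e2 : (Nat.unpair (Nat.pair n (lev n y))).2 = lev n y := by rw [Nat.unpair_pair]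
      rw [e2]
      generalize (Nat.unpair (Nat.pair n (lev n y))).1 = m at e1
      subst e1
      exact ⟨y, ⟨rfl, h2⟩, rfl⟩
    exact ((hg3 _ b _).image _).subset h1
  · intro a b hab
    apply UB.ext'
    have hcl : IsClosed {y : X | a.1 y = b.1 y} :=
      isClosed_eq (map_continuous a.1) (map_continuous b.1)
    have hsub : S ⊆ {y : X | a.1 y = b.1 y} := by
      intro y hy
      have h2 : (⟨y, hy⟩ : S) ∈ ⋃ n, Q n := by rw [hQ1]; trivial
      obtain ⟨n, hn⟩ := mem_iUnion.1 h2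
      exact hg4 n a b (fun x => hab ⟨n, x⟩) y ⟨_, hn, rfl⟩
    intro x
    exact closure_minimal hsub hcl (hS x)

end Final

end Pool.Agent.Helper47.SE
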